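import Pool.Agent.Q161.ESM.Stm2
import Pool.Agent.Q161.OS.Stm

/-!
# Project ESM (helper161), part 3: descent for products of elliptic curves

`E_j : y² = f_j(x)`, `j ∈ J`, `f_j` a monic irreducible cubic polynomial, `L_j = ℚ(θ_j)`; `K` a number field, Galois
over `ℚ`, with all embeddings `io j k : L_j → K`, `k = 0, 1, 2`.  The nonzero points of `E_j[2]` correspond to `k`;
`V = ∏ E_j[2]`, `cd t j : Fin 3 → F_2` is the `j`-th component of `t`: zero (`Tz`), or (`Tm k`) the point `k`, the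
function with the value `0` in `k` and `1` elsewhere (so the sum of the values is zero).

An element of `Sel_2(E_{j,D})` gives by the descent of project OS a pair `(α_j, m_j)`.  A prime `w` of `K` above
`l ∣ D` has a type `t ∈ V` (`Tp`): `t_j = 0` if `l ∣ m_j`, and `t_j = k` if `io j k (α_j) ∈ w`.  There is an
equivariant function `z : V → 𝓞 K` such that `w ∣ z t` iff `w` has the type `t` (`S_ZEX`).  So `∏_t z t` is
about `D`, and up to squares and finitely many possibilities `io j k (α_j) ~ ∏_{t_j = k} z t`,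
`m_j ~ ∏_{t_j = 0} z t`.  The conditions for `(α_j, m_j)` at `l` imply that `z` satisfies the local conditions
`Loc` of part 2 (`S_LOC`), and `z` determines `D` and the Selmer elements up to finitely many possibilities.
-/

set_option autoImplicit false

namespace Pool.Agent.Q161.ESM

open Polynomial NumberField IsDedekindDomain Finset
open Pool.Agent.Q51.EL (pr Abv N1 Par Setup)
open Pool.Agent.Q161.EA (Un Nice)
open Pool.Agent.Q161.OS (Cov Tr Gd)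

/-- the descent of project OS with the additional property `m ∣ D`
(PROVED: `Pool/Agent/Q161/ESM/Desc3.lean`) -/
def S_DESC3 : Prop := ∀ (f : ℤ[X]) (L : Type) [Field L] [NumberField L] (θ : L), Setup f L θ →
  Odd f.natDegree → 3 ≤ f.natDegree → ∀ t : 𝓞 L, (t : L) = f.leadingCoeff * θ →
  ∃ (B : ℕ) (C : ℝ), B ≠ 0 ∧ 0 < C ∧ ∀ (D : ℤ) (d : ℚ[X]), Squarefree D → aeval θ d ≠ 0 →
  (∀ (p : ℕ) [Fact p.Prime],
    Cov f d (((f.leadingCoeff * D : ℤ) : ℚ) * Algebra.norm ℚ (aeval θ d)) ℚ_[p]) →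
  ∃ (α : 𝓞 L) (c : ℚ) (η : L) (κ m : ℤ), α ≠ 0 ∧ c ≠ 0 ∧ η ≠ 0 ∧
    (α : L) = c * aeval θ d * η ^ 2 ∧ κ ∣ (B : ℤ) ∧ Gd B t κ D α m ∧
    1 ≤ m ∧ m ∣ D ∧
    ∀ σ : L →+* ℂ, ‖σ (α : L)‖ ≤
      C * ((D.natAbs : ℝ) / m) ^ ((1 : ℝ) / Module.finrank ℚ L)

/-! ## Part A: general number fields -/

/-- JOB GEN. Generators of products of primes.
Proof.  Let `𝔠_1, .., 𝔠_h` be nonzero ideals of `𝓞 L`, one in each ideal class, `B0` the product of their norms.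
`∏_{v ∈ S} v * 𝔠_i = (β0)` for some `i`; `EL.S_UN` (proved: `Pool.Agent.Q239.EL.un`) gives a unit `u` with
`|σ (β0 u²)| ≤ C1 |N β0|^(1/n)`; `β = β0 u²`.  `Nice`: `bal` is clear; the number of the prime factors of `β` is
`#S` + the number of those of `𝔠_i`, and the primes `N v`, `v ∈ S`, are different and divide the norm. -/
def S_GEN : Prop := ∀ (L : Type) [Field L] [NumberField L], ∃ (B0 : ℕ) (C K0 : ℝ), B0 ≠ 0 ∧ 0 < C ∧
  ∀ S : Finset (HeightOneSpectrum (𝓞 L)),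
    (∀ v ∈ S, (B0 : 𝓞 L) ∉ v.asIdeal ∧ (Ideal.absNorm v.asIdeal).Prime) →
    (∀ v ∈ S, ∀ v' ∈ S, Ideal.absNorm v.asIdeal = Ideal.absNorm v'.asIdeal → v = v') →
    ∃ β : 𝓞 L, β ≠ 0 ∧ (∀ v : HeightOneSpectrum (𝓞 L), (B0 : 𝓞 L) ∉ v.asIdeal →
        (v ∈ S → v.valuation L (β : L) = WithZero.exp (-1 : ℤ)) ∧
        (v ∉ S → v.valuation L (β : L) = 1)) ∧
      ((Ideal.absNorm (Ideal.span {β}) : ℕ) : ℝ) ≤ C * ∏ v ∈ S, ((Ideal.absNorm v.asIdeal : ℕ) : ℝ) ∧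
      Nice K0 β

/-- JOB SUF. Numbers with even valuations outside `B`, modulo squares.
Proof.  Apply `EL.S_CL` (proved: `Pool.Agent.Q239.EL.cl`) to `x` and the finite set `S` of the `v` with odd
valuation of `x` and not dividing `B_CL` (all divide `B`): `x η² = β ∈ 𝓞 L` with `|N β| ≤ C`.  There are finitely
many ideals of norm `≤ C`; two `β` which generate the same ideal differ by a unit, and the units modulo
squares are finite (Dirichlet's unit theorem: the unit group is finitely generated). -/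
def S_SUF : Prop := ∀ (L : Type) [Field L] [NumberField L] (B : ℕ), B ≠ 0 →
  ∃ Q : Finset L, (∀ a ∈ Q, a ≠ 0) ∧ ∀ x : L, x ≠ 0 →
    (∀ v : HeightOneSpectrum (𝓞 L), (B : 𝓞 L) ∉ v.asIdeal → Par v x 0) →
    ∃ a ∈ Q, ∃ q : L, q ≠ 0 ∧ x = a * q ^ 2

section K

variable {K : Type} [Field K] [NumberField K] {V : Type} [AddCommGroup V]
  [DistribMulAction (K ≃ₐ[ℚ] K) V]

/-- `w' = g w` -/
def Mv (g : K ≃ₐ[ℚ] K) (w w' : HeightOneSpectrum (𝓞 K)) : Prop :=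
  ∀ x y : 𝓞 K, (y : K) = g (x : K) → (x ∈ w.asIdeal ↔ y ∈ w'.asIdeal)

end K

/-- JOB ZEX. Existence of `z` for given types `τ w`.
Proof (from `S_GEN`, `S_EVX`, `S_FRX`).  `B1` = a common multiple of the `B0` of `S_GEN` for the `Lf i` and of the
`B` of `S_FRX`.  `S_i` = the set of the primes `v` of `Lf i` which lie below (via `em i`) a prime `w` of `K` above
some `l ∈ R` with `τ w = rp i`.  Let `F` be a Frobenius element at `w` (`S_FRX`); `Mv F w w`, so `F τ w = τ w`, `F`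
fixes `rp i`, so it is trivial on `Lf i`, `x ≡ x^l mod v` for all `x`, and `N v = l`.  If `v, v' ∈ S_i` lie above the
same `l`, `w' = g w` for some `g ∈ G` (`G` is transitive on the primes above `l`), `rp i = τ w' = g rp i`, so `g` is
trivial on `Lf i`, `v' = v`.  `S_GEN` gives `β_i ∈ 𝓞 (Lf i)`; `z = ev (β_i)`, `z (g rp i) = g (em i β_i)`.  For `w` above
`l ∤ B1`, `t = g rp i`: the valuation of `z t` at `w` is that of `em i β_i` at `g⁻¹ w`, which is the one of `β_i` at the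
prime `v` below (`l` is unramified in `K`).  `v ∈ S_i` iff `v` lies below some `w''` above some element of `R`
(so `l ∈ R`) with `τ w'' = rp i`; and then `w'' = h g⁻¹ w` with `h` in the stabilizer of `rp i` (transitivity of
`Gal(K/Lf i)` on the primes above `v`), `τ (g⁻¹ w) = rp i`, `τ w = t`; and conversely.  `∏_t z t = ∏_i N(β_i)`,
`|N(β_i)| ≤ C ∏_{v ∈ S_i} N v`, and for `l ∈ R` all `τ w`, `w` above `l`, lie in one orbit, so at most one of the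
`S_i` has an element above `l`: `∏_i ∏_{v ∈ S_i} N v ≤ ∏_{l ∈ R} l`. -/
def S_ZEX : Prop := ∀ (K : Type) [Field K] [NumberField K] [IsGalois ℚ K] (V : Type) [AddCommGroup V]
  [Fintype V] [DistribMulAction (K ≃ₐ[ℚ] K) V] (ι : Type) [Fintype ι] (Lf : ι → Type)
  [∀ i, Field (Lf i)] [∀ i, NumberField (Lf i)] (em : (i : ι) → Lf i →+* K) (rp : ι → V),
  Rp Lf em rp → ∃ (B1 : ℕ) (C K0 : ℝ), B1 ≠ 0 ∧ 0 < C ∧
  ∀ (R : Finset ℕ) (τ : HeightOneSpectrum (𝓞 K) → V), (∀ l ∈ R, l.Prime ∧ ¬ l ∣ B1) →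
    (∀ l ∈ R, ∀ (w w' : HeightOneSpectrum (𝓞 K)) (g : K ≃ₐ[ℚ] K), Abv w l → Mv g w w' →
      τ w' = g • τ w) →
    ∃ z : V → 𝓞 K, Eqv z ∧ (∀ t, z t ≠ 0) ∧
      (∀ i, ∃ β : 𝓞 (Lf i), em i (β : Lf i) = (z (rp i) : K) ∧ Nice K0 β) ∧
      (∀ l : ℕ, l.Prime → ¬ l ∣ B1 → ∀ w : HeightOneSpectrum (𝓞 K), Abv w l → ∀ t : V,
        (l ∈ R ∧ τ w = t → w.valuation K (z t : K) = WithZero.exp (-1 : ℤ)) ∧
        (¬ (l ∈ R ∧ τ w = t) → w.valuation K (z t : K) = 1)) ∧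
      ∃ N : ℤ, ∏ t, z t = (N : 𝓞 K) ∧ |(N : ℝ)| ≤ C * ∏ l ∈ R, (l : ℝ)

/-! ## Part B: the module `V` -/

section J

variable {J : Type} {K : Type} [Field K] [NumberField K] {L : J → Type} [∀ j, Field (L j)]
  [∀ j, NumberField (L j)]

/-- the fields `L j = ℚ(tt j)`, `tt j` a zero of the monic irreducible cubic polynomial `f j`, and their three
embeddings in `K` -/
structure Fld (f : J → ℤ[X]) (tt : (j : J) → 𝓞 (L j)) (io : (j : J) → Fin 3 → (L j →+* K)) :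
    Prop where
  mon : ∀ j, (f j).leadingCoeff = 1
  deg : ∀ j, (f j).natDegree = 3
  set : ∀ j, Setup (f j) (L j) (tt j : L j)
  bij : ∀ j, Function.Bijective (io j)

variable {V : Type} [AddCommGroup V] [DistribMulAction (K ≃ₐ[ℚ] K) V]

/-- `V = ∏ E_j[2]` with the coordinates `cd t j k`; `pm g j`: the permutation of the three embeddings -/
structure VS (io : (j : J) → Fin 3 → (L j →+* K)) (pm : (K ≃ₐ[ℚ] K) → J → Fin 3 → Fin 3)
    (cd : V →+ (J → Fin 3 → ZMod 2)) : Prop where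
  emb : ∀ (g : K ≃ₐ[ℚ] K) (j : J) (k : Fin 3) (y : L j), g (io j k y) = io j (pm g j k) y
  inj : Function.Injective cd
  im : ∀ e : J → Fin 3 → ZMod 2, (∃ t : V, cd t = e) ↔ ∀ j, ∑ k, e j k = 0
  eqv : ∀ (g : K ≃ₐ[ℚ] K) (t : V) (j : J) (k : Fin 3), cd (g • t) j (pm g j k) = cd t j k

/-- the component `t_j` is zero -/
def Tz (cd : V →+ (J → Fin 3 → ZMod 2)) (t : V) (j : J) : Prop := ∀ k, cd t j k = 0

/-- the component `t_j` is the point number `k` -/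
def Tm (cd : V →+ (J → Fin 3 → ZMod 2)) (t : V) (j : J) (k : Fin 3) : Prop :=
  cd t j k = 0 ∧ ∀ k', k' ≠ k → cd t j k' = 1

/-- the prime `w` above `l` has the type `t` -/
def Tp (io : (j : J) → Fin 3 → (L j →+* K)) (cd : V →+ (J → Fin 3 → ZMod 2))
    (α : (j : J) → 𝓞 (L j)) (m : J → ℤ) (l : ℕ) (w : HeightOneSpectrum (𝓞 K)) (t : V) : Prop :=
  ∀ j, ((l : ℤ) ∣ m j ∧ Tz cd t j ∧ ∀ k, w.valuation K (io j k (α j : L j)) = 1) ∨
    (¬ (l : ℤ) ∣ m j ∧ ∃ k, Tm cd t j k ∧ w.valuation K (io j k (α j : L j)) = WithZero.exp (-1 : ℤ) ∧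
      ∀ k', k' ≠ k → w.valuation K (io j k' (α j : L j)) = 1)

/-- `z` belongs to the Selmer elements `(α j, m j)` of the twists by `D`: divisibility -/
structure Rel0 (tt : (j : J) → 𝓞 (L j)) (io : (j : J) → Fin 3 → (L j →+* K))
    (cd : V →+ (J → Fin 3 → ZMod 2)) (B : ℕ) (κ : J → ℤ) (D : ℤ) (α : (j : J) → 𝓞 (L j))
    (m : J → ℤ) (z : V → 𝓞 K) : Prop where
  sq : Squarefree D
  kap : ∀ j, κ j ∣ (B : ℤ)
  gd : ∀ j, Gd B (tt j) (κ j) D (α j) (m j)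
  a0 : ∀ j, α j ≠ 0
  m1 : ∀ j, 1 ≤ m j
  md : ∀ j, m j ∣ D
  eqv : Eqv z
  ne : ∀ t, z t ≠ 0
  typ : ∀ l : ℕ, l.Prime → ¬ l ∣ B → ∀ w : HeightOneSpectrum (𝓞 K), Abv w l → ∀ t : V,
    ((l : ℤ) ∣ D ∧ Tp io cd α m l w t → w.valuation K (z t : K) = WithZero.exp (-1 : ℤ)) ∧
    (¬ ((l : ℤ) ∣ D ∧ Tp io cd α m l w t) → w.valuation K (z t : K) = 1)

open Classical in
/-- `z` belongs to the Selmer elements `(α j, m j)` of the twists by `D`; `κ, μ, a` are from finite sets -/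
structure Rel [Fintype V] (tt : (j : J) → 𝓞 (L j)) (io : (j : J) → Fin 3 → (L j →+* K))
    (cd : V →+ (J → Fin 3 → ZMod 2)) (B : ℕ) (κ μ : J → ℤ) (a : (j : J) → L j) (D : ℤ)
    (α : (j : J) → 𝓞 (L j)) (m : J → ℤ) (z : V → 𝓞 K) : Prop where
  rel : Rel0 tt io cd B κ D α m z
  qa : ∀ j, ∃ q : L j, q ≠ 0 ∧ ∀ k, io j k (α j : L j) *
    (∏ t ∈ univ.filter (fun t => Tm cd t j k), (z t : K)) = io j k (a j) * io j k q ^ 2
  qm : ∀ j, ∃ s : ℤ, s ≠ 0 ∧ (m j : 𝓞 K) * (∏ t ∈ univ.filter (fun t => Tz cd t j), z t) =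
    ((μ j * s ^ 2 : ℤ) : 𝓞 K)

end J

/-- JOB KX. The field `K`: the splitting field of `∏ f_j`. -/
def S_KX : Prop := ∀ (J : Type) [Fintype J] (f : J → ℤ[X]) (L : J → Type) [∀ j, Field (L j)]
  [∀ j, NumberField (L j)] (tt : (j : J) → 𝓞 (L j)), (∀ j, (f j).leadingCoeff = 1) →
  (∀ j, (f j).natDegree = 3) → (∀ j, Setup (f j) (L j) (tt j : L j)) →
  ∃ (K : Type) (_ : Field K) (_ : NumberField K) (io : (j : J) → Fin 3 → (L j →+* K)),
    IsGalois ℚ K ∧ Fld f tt io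

/-- JOB VX. The module `V`.
Proof.  `g ∘ io j k` is an embedding, so it is `io j (pm g j k)`; `pm` is an action of `G` on `Fin 3` (for each `j`),
transitive (two embeddings of `L j` in the normal field `K` differ by an element of `G`).
`V = {e | ∀ j, ∑_k e j k = 0}`, `(g e) j (pm g j k) = e j k`.  No invariants: if `e` is invariant, `e j` is constant
by transitivity, `0 = 3 e = e`.  Semisimple: the component `V_j` (nonzero elements: the three points `k`) has no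
`G`-stable subgroups besides `0` and `V_j`.  Given `W`, let `J'` be a maximal subset of `J` with `W ∩ V_(J') = 0`
(`V_(J')` = the elements with components zero outside `J'`).  For `j ∉ J'` there is `w = v' + v_j ∈ W`,
`v' ∈ V_(J')`, `0 ≠ v_j ∈ V_j`, so `(W + V_(J')) ∩ V_j ≠ 0` is `V_j`; so `W + V_(J') = V`, `W' = V_(J')`. -/
def S_VX : Prop := ∀ (J : Type) [Fintype J] (f : J → ℤ[X]) (L : J → Type) [∀ j, Field (L j)]
  [∀ j, NumberField (L j)] (K : Type) [Field K] [NumberField K] [IsGalois ℚ K]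
  (tt : (j : J) → 𝓞 (L j)) (io : (j : J) → Fin 3 → (L j →+* K)), Fld f tt io →
  ∃ (pm : (K ≃ₐ[ℚ] K) → J → Fin 3 → Fin 3) (V : Type) (_ : AddCommGroup V) (_ : Fintype V)
    (_ : DistribMulAction (K ≃ₐ[ℚ] K) V) (cd : V →+ (J → Fin 3 → ZMod 2)), VS io pm cd ∧
    (∀ v : V, v + v = 0) ∧ Semi (K ≃ₐ[ℚ] K) V ∧ ∀ v : V, (∀ g : K ≃ₐ[ℚ] K, g • v = v) → v = 0

/-! ## Part C: the types and the descent -/

/-- JOB TYP. The type of a prime.
Proof.  `B1` is divisible by the ramified primes of `K` and by the discriminants of the `f_j`.  `v_k` = the prime of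
`L_j` below `w` via `io j k`; as `l` is unramified, the valuation of `io j k x` at `w` is the one of `x` at `v_k`.
If `l ∤ D`: `Gd.even`.  If `l ∣ D`, `l ∣ m_j`: `Gd.odd` (first alternative).  If `l ∣ D`, `l ∤ m_j`: let `v0`, `r` be as in
`Gd.odd`; it suffices to show that `v_k = v0` for exactly one `k`.  At most one: then `io j k (tt j) ≡ r mod w`, and the
three numbers `io j k (tt j)` are different modulo `w` (the discriminant is prime to `l`).  At least one: let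
`w0` be a prime of `K` above `v0` (via `io j 0`); there is a `g ∈ G` with `w = g w0`; `k = pm g j 0`, as
`io j k = g ∘ io j 0`.  The component `t_j` is determined by this; `VS.im` and `VS.inj`. -/
def S_TYP : Prop := ∀ (J : Type) [Fintype J] (f : J → ℤ[X]) (L : J → Type) [∀ j, Field (L j)]
  [∀ j, NumberField (L j)] (K : Type) [Field K] [NumberField K] [IsGalois ℚ K]
  (tt : (j : J) → 𝓞 (L j)) (io : (j : J) → Fin 3 → (L j →+* K)), Fld f tt io →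
  ∀ (V : Type) [AddCommGroup V] [DistribMulAction (K ≃ₐ[ℚ] K) V]
  (pm : (K ≃ₐ[ℚ] K) → J → Fin 3 → Fin 3) (cd : V →+ (J → Fin 3 → ZMod 2)), VS io pm cd →
  ∃ B1 : ℕ, B1 ≠ 0 ∧ ∀ B : ℕ, B1 ∣ B → ∀ (κ : J → ℤ) (D : ℤ) (α : (j : J) → 𝓞 (L j)) (m : J → ℤ),
    Squarefree D → (∀ j, Gd B (tt j) (κ j) D (α j) (m j)) →
    ∀ l : ℕ, l.Prime → ¬ l ∣ B → ∀ w : HeightOneSpectrum (𝓞 K), Abv w l →
      ((l : ℤ) ∣ D → ∃! t : V, Tp io cd α m l w t) ∧
      (¬ (l : ℤ) ∣ D → ∀ j k, w.valuation K (io j k (α j : L j)) = 1)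

/-- JOB TEQ. The types are equivariant (`g (io j k x) = io j (pm g j k) x`, and `pm g j` is bijective). -/
def S_TEQ : Prop := ∀ (J : Type) (f : J → ℤ[X]) (L : J → Type) [∀ j, Field (L j)]
  [∀ j, NumberField (L j)] (K : Type) [Field K] [NumberField K]
  (tt : (j : J) → 𝓞 (L j)) (io : (j : J) → Fin 3 → (L j →+* K)), Fld f tt io →
  ∀ (V : Type) [AddCommGroup V] [DistribMulAction (K ≃ₐ[ℚ] K) V]
  (pm : (K ≃ₐ[ℚ] K) → J → Fin 3 → Fin 3) (cd : V →+ (J → Fin 3 → ZMod 2)), VS io pm cd →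
  ∀ (α : (j : J) → 𝓞 (L j)) (m : J → ℤ) (l : ℕ) (w w' : HeightOneSpectrum (𝓞 K))
    (g : K ≃ₐ[ℚ] K) (t : V), Mv g w w' → Tp io cd α m l w t → Tp io cd α m l w' (g • t)

open Classical in
/-- JOB QA. The class of `α_j`.
Proof (from `S_SUF`, `S_TYP`).  `A_k = io j k (α_j) ∏_{t_j = k} z t` satisfies `g A_k = A_(pm g j k)`; so `A_0` is fixed by the
elements `g` which are trivial on `io j 0 (L j)` (these have `pm g j 0 = 0`), `A_0 = io j 0 A` (Galois theory), and so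
`A_k = io j k A` for all `k` (transitivity).  Let `v` be a prime of `L_j` not dividing `B`, above `l`, and `w` a prime of
`K` above it (via `io j 0`), `l` unramified in `K`: the valuation of `A` at `v` is the one of `A_0` at `w`; if `l ∤ D`
it is 1 (`S_TYP`, `Rel0.typ`), if `l ∣ D` let `t` be the type of `w`: it is `exp(-2)` if `Tm cd t j 0`, and `1`
otherwise.  So `Par v A 0`; `S_SUF`.  (For `w` exactly one of the `z t` is not a unit.) -/
def S_QA : Prop := ∀ (J : Type) [Fintype J] (f : J → ℤ[X]) (L : J → Type) [∀ j, Field (L j)]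
  [∀ j, NumberField (L j)] (K : Type) [Field K] [NumberField K] [IsGalois ℚ K]
  (tt : (j : J) → 𝓞 (L j)) (io : (j : J) → Fin 3 → (L j →+* K)), Fld f tt io →
  ∀ (V : Type) [AddCommGroup V] [Fintype V] [DistribMulAction (K ≃ₐ[ℚ] K) V]
  (pm : (K ≃ₐ[ℚ] K) → J → Fin 3 → Fin 3) (cd : V →+ (J → Fin 3 → ZMod 2)), VS io pm cd →
  ∃ B1 : ℕ, B1 ≠ 0 ∧ ∀ B : ℕ, B1 ∣ B → B ≠ 0 → ∃ Q : (j : J) → Finset (L j),
    ∀ (κ : J → ℤ) (D : ℤ) (α : (j : J) → 𝓞 (L j)) (m : J → ℤ) (z : V → 𝓞 K),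
      Rel0 tt io cd B κ D α m z → ∀ j, ∃ a ∈ Q j, ∃ q : L j, q ≠ 0 ∧ ∀ k, io j k (α j : L j) *
        (∏ t ∈ univ.filter (fun t => Tm cd t j k), (z t : K)) = io j k a * io j k q ^ 2

open Classical in
/-- JOB QM. The class of `m_j`.
Proof (from `S_TYP`).  `M = m_j ∏_{t_j = 0} z t` is invariant under `G` and integral, so a nonzero integer.  Let `l` be
a prime, `l ∤ B`, `w` a prime of `K` above `l`, unramified.  If `l ∤ D`: `M` is a unit at `w` (`m_j ∣ D`).  If `l ∣ D`, let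
`t` be the type of `w`; the valuation of `∏_{t_j = 0} z t` is `exp(-1)` if `Tz cd t j`, which is the case iff `l ∣ m_j`
(`Tp`; not both `Tz` and `Tm`), and then `l` divides `m_j` exactly once (`m_j ∣ D`, `D` squarefree).  So
`v_l(M)` is even for all `l ∤ B`, and `M = μ s²`, `μ ∣ B` (`Pool.Agent.Q151.OS.kap_dvd`, `Q151/OS/DESC2.lean`). -/
def S_QM : Prop := ∀ (J : Type) [Fintype J] (f : J → ℤ[X]) (L : J → Type) [∀ j, Field (L j)]
  [∀ j, NumberField (L j)] (K : Type) [Field K] [NumberField K] [IsGalois ℚ K]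
  (tt : (j : J) → 𝓞 (L j)) (io : (j : J) → Fin 3 → (L j →+* K)), Fld f tt io →
  ∀ (V : Type) [AddCommGroup V] [Fintype V] [DistribMulAction (K ≃ₐ[ℚ] K) V]
  (pm : (K ≃ₐ[ℚ] K) → J → Fin 3 → Fin 3) (cd : V →+ (J → Fin 3 → ZMod 2)), VS io pm cd →
  ∃ B1 : ℕ, B1 ≠ 0 ∧ ∀ B : ℕ, B1 ∣ B → B ≠ 0 →
    ∀ (κ : J → ℤ) (D : ℤ) (α : (j : J) → 𝓞 (L j)) (m : J → ℤ) (z : V → 𝓞 K),
      Rel0 tt io cd B κ D α m z → ∀ j, ∃ μ s : ℤ, μ ∣ (B : ℤ) ∧ s ≠ 0 ∧
        (m j : 𝓞 K) * (∏ t ∈ univ.filter (fun t => Tz cd t j), z t) = ((μ * s ^ 2 : ℤ) : 𝓞 K)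

/-- JOB REL. The descent for the product.
Proof (from `S_DESC3`, `S_ZEX`, `S_TYP`, `S_TEQ`, `S_QA`, `S_QM`).  `B` = the product of `B1`, the `B` of `S_DESC3` for all
`j` (`Gd` for `B_j` implies `Gd` for a multiple), and the `B1` of the other statements.  Given `D` and the `d j` let
`α_j, m_j, κ_j` be as in `S_DESC3`.  `R` = the set of the primes `l ∣ D`, `l ∤ B`; for `w` above `l ∈ R` let `τ w` be its type
(`S_TYP`), equivariant by `S_TEQ` and uniqueness.  `z` from `S_ZEX`; `|N| ≤ C ∏_{l ∈ R} l ≤ C |D|`.  This gives `Rel0`,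
and `S_QA`, `S_QM` give `a_j`, `μ_j`.  `Qk`, `Qm`: the functions `J → ℤ` whose values divide `B`;
`Qa`: the functions with values in the `Q j`. -/
def S_REL : Prop := ∀ (J : Type) [Fintype J] (f : J → ℤ[X]) (L : J → Type) [∀ j, Field (L j)]
  [∀ j, NumberField (L j)] (K : Type) [Field K] [NumberField K] [IsGalois ℚ K]
  (tt : (j : J) → 𝓞 (L j)) (io : (j : J) → Fin 3 → (L j →+* K)), Fld f tt io →
  ∀ (V : Type) [AddCommGroup V] [Fintype V] [DistribMulAction (K ≃ₐ[ℚ] K) V]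
  (pm : (K ≃ₐ[ℚ] K) → J → Fin 3 → Fin 3) (cd : V →+ (J → Fin 3 → ZMod 2)), VS io pm cd →
  ∀ (ι : Type) [Fintype ι] (Lf : ι → Type)
  [∀ i, Field (Lf i)] [∀ i, NumberField (Lf i)] (em : (i : ι) → Lf i →+* K) (rp : ι → V),
  Rp Lf em rp → ∀ B1 : ℕ, B1 ≠ 0 →
  ∃ (B : ℕ) (C K0 : ℝ) (Qk Qm : Finset (J → ℤ)) (Qa : Finset ((j : J) → L j)),
    B1 ∣ B ∧ B ≠ 0 ∧ 0 < C ∧ ∀ (D : ℤ) (d : J → ℚ[X]), Squarefree D →
    (∀ j, aeval (tt j : L j) (d j) ≠ 0) →
    (∀ j, ∀ (p : ℕ) [Fact p.Prime], Cov (f j) (d j)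
      ((((f j).leadingCoeff * D : ℤ) : ℚ) * Algebra.norm ℚ (aeval (tt j : L j) (d j))) ℚ_[p]) →
    ∃ κ ∈ Qk, ∃ μ ∈ Qm, ∃ a ∈ Qa, ∃ (α : (j : J) → 𝓞 (L j)) (m : J → ℤ) (z : V → 𝓞 K),
      Rel tt io cd B κ μ a D α m z ∧
      (∀ i, ∃ β : 𝓞 (Lf i), em i (β : Lf i) = (z (rp i) : K) ∧ Nice K0 β) ∧
      (∃ N : ℤ, ∏ t, z t = (N : 𝓞 K) ∧ |(N : ℝ)| ≤ C * (D.natAbs : ℝ)) ∧
      ∀ j, ∃ (c : ℚ) (η : L j), c ≠ 0 ∧ η ≠ 0 ∧
        (α j : L j) = c * aeval (tt j : L j) (d j) * η ^ 2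

/-! ## Part D: the local conditions -/

/-- JOB DUAL. The linear forms on `V`.
Proof.  `V` is the product of the `V_j = {e ∈ F_2^3 | ∑ e = 0}`, and the linear forms on `V_j` are `0` and the three
coordinates.  The representation is unique, so the invariance under `F` gives `pm F j (k j) = k j`. -/
def S_DUAL : Prop := ∀ (J : Type) [Fintype J] (L : J → Type) [∀ j, Field (L j)]
  [∀ j, NumberField (L j)] (K : Type) [Field K] [NumberField K]
  (io : (j : J) → Fin 3 → (L j →+* K)) (V : Type) [AddCommGroup V] [DistribMulAction (K ≃ₐ[ℚ] K) V]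
  (pm : (K ≃ₐ[ℚ] K) → J → Fin 3 → Fin 3) (cd : V →+ (J → Fin 3 → ZMod 2)), VS io pm cd →
  ∀ (F : K ≃ₐ[ℚ] K) (φ : V →+ ZMod 2), (∀ s, φ (F • s) = φ s) →
    ∃ (J' : Finset J) (k : J → Fin 3), (∀ s, φ s = ∑ j ∈ J', cd s j (k j)) ∧
      ∀ j ∈ J', pm F j (k j) = k j

/-- JOB ADD. The characters are multiplicative in `φ`.
Proof.  For a set `U` with `t ∉ U` stable under `F` the element `x = ∏_{s ∈ U} c s` satisfies `x^l = x`, `x ≠ 0`, so
`x^(l-1) = 1`.  Induction on `J'`: the product for `φ + φ_j`, times the square of the product over the `s` with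
`φ(s - t) ≠ 0`, `φ_j(s - t) ≠ 0`, is the product of those for `φ` and `φ_j`. -/
def S_ADD : Prop := ∀ (k V J : Type) [Field k] [AddCommGroup V] [Fintype V] (l : ℕ), l.Prime →
  l ≠ 2 → ∀ (F : V →+ V) (c : V → k) (t : V), Function.Bijective F → F t = t →
  (∀ s, c (F s) = c s ^ l) → (∀ s, s ≠ t → c s ≠ 0) →
  ∀ (J' : Finset J) (φ : J → (V →+ ZMod 2)), (∀ j ∈ J', ∀ s, φ j (F s) = φ j s) →
    (∀ j ∈ J', (∏ s ∈ univ.filter (fun s => φ j (s - t) ≠ 0), c s) ^ ((l - 1) / 2) = 1) →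
    (∏ s ∈ univ.filter (fun s => (∑ j ∈ J', φ j) (s - t) ≠ 0), c s) ^ ((l - 1) / 2) = 1

/-- JOB LJ. The local condition for one curve.
Proof (from `S_TYP`).  `B1` = the one of `S_TYP`, times 2 and the discriminants of the `f_j`.  For `x, y ∈ K` write `x ≡ y` if
`w.valuation K (x - y) < 1`.  (1) If `F x = x` and `x` has valuation 1, then `x^(l-1) ≡ 1` (`x` is a quotient of two
elements of `𝓞 K` which are not in `w`, so `F x ≡ x^l`).  (2) `F (io j k' x) = io j (pm F j k') x`; let `v_k'` be the prime of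
`L_j` below `w` via `io j k'`; so `v_(pm F j k') = v_k'`.  As `z t ∈ w`, `l ∣ D` and `t` is the type of `w`, also for `z'`.
`P = ∏ z s` over the `s` with `cd (s - t) j k ≠ 0`, `P'` the same for `z'`; we show that `P P' ≡ x²` with `F x = x`,
`x` of valuation 1; then (1).  For `x ∈ L_j` put `io' x = ∏_{k' ≠ k} io j k' x`; as `pm F j k = k`, `F (io' x) = io' x`.
(A) `Tz cd t j`.  The `s` in `P` are those with `Tm cd s j k'`, `k' ≠ k`; so by `Rel.qa`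
`P P' io'(α_j α'_j) = io'(a_j q q')²`.  By `Gd.odd` (first alternative, as `l ∣ m_j`) there are `c` and `g_v` with
`c α_j ≡ g_v² mod v` for all `v` above `l`; so `c² io'(α_j) ≡ G²`, `G = ∏_{k' ≠ k} io j k' (g_(v_k'))`, `F G = G` by (2).
The same for `α'_j`.  So `P P' ≡ (io'(a_j q q') c c' / (G G'))²`.
(B) `Tm cd t j k0`.  By `Gd.odd` (second alternative) `v_k0 = v0` and `v_k' ≠ v0` for `k' ≠ k0` (valuations of `α_j`, `Tp`), and
with `ρ_k' = io j k' (tt j)`: `r ≡ ρ_k0`, `κ m_j io j k' (α_j) ≡ (r - ρ_k') (io j k' g_(v_k'))²` for `k' ≠ k0`; the same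
for `α'_j`, with `r' ≡ ρ_k0 ≡ r`; and `r ≢ ρ_k'` (the discriminant is prime to `l`).
(B1) `k = k0`: the `s` in `P` are those with `Tm cd s j k'`, `k' ≠ k`: `P P' io'(α_j α'_j) = io'(a_j q q')²`, and
`(κ² m_j m'_j)² io'(α_j α'_j) ≡ (∏_{k' ≠ k} (r - ρ_k'))² (G G')²`, everything is invariant under `F`.
(B2) `k ≠ k0`: the `s` in `P` are those with `cd s j k = 0`, that is `Tz cd s j` or `Tm cd s j k`; by `Rel.qa`, `Rel.qm`
`m_j m'_j io j k (α_j α'_j) P P' = (μ_j s0 s0' io j k (a_j q q'))²`, and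
`κ² m_j m'_j io j k (α_j α'_j) ≡ (r - ρ_k)² (io j k (g g'))²`; everything is invariant under `F`, as `pm F j k = k`. -/
def S_LJ : Prop := ∀ (J : Type) [Fintype J] (f : J → ℤ[X]) (L : J → Type) [∀ j, Field (L j)]
  [∀ j, NumberField (L j)] (K : Type) [Field K] [NumberField K] [IsGalois ℚ K]
  (tt : (j : J) → 𝓞 (L j)) (io : (j : J) → Fin 3 → (L j →+* K)), Fld f tt io →
  ∀ (V : Type) [AddCommGroup V] [Fintype V] [DistribMulAction (K ≃ₐ[ℚ] K) V]
  (pm : (K ≃ₐ[ℚ] K) → J → Fin 3 → Fin 3) (cd : V →+ (J → Fin 3 → ZMod 2)), VS io pm cd →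
  ∃ B1 : ℕ, B1 ≠ 0 ∧ ∀ B : ℕ, B1 ∣ B → B ≠ 0 →
    ∀ (κ μ : J → ℤ) (a : (j : J) → L j) (D D' : ℤ) (α α' : (j : J) → 𝓞 (L j)) (m m' : J → ℤ)
      (z z' : V → 𝓞 K), Rel tt io cd B κ μ a D α m z → Rel tt io cd B κ μ a D' α' m' z' →
    ∀ l : ℕ, l.Prime → ¬ l ∣ B → ∀ (w : HeightOneSpectrum (𝓞 K)) (F : K ≃ₐ[ℚ] K), Abv w l →
      Fb w l F → ∀ t : V, z t ∈ w.asIdeal → z' t ∈ w.asIdeal → ∀ (j : J) (k : Fin 3), pm F j k = k →
      (∏ s ∈ univ.filter (fun s => cd (s - t) j k ≠ 0), z s * z' s) ^ ((l - 1) / 2) - 1 ∈ w.asIdeal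

/-- JOB LOC. The local conditions.
Proof (from `S_TYP`, `S_TEQ`, `S_DUAL`, `S_ADD`, `S_LJ`).  `one`: `z t ∈ w` means that `l ∣ D` and `t` is the type of `w`
(`Rel0.typ`), so `z s ∉ w` for `s ≠ t`; `Mv F w w` by `Fb`, so `F t` is the type of `w`, `F t = t`.  `two`: `S_DUAL`
and `S_ADD` (in the field `𝓞 K/w`, `c s` = the class of `z s * z' s`; `F s` = `F • s`; `z` is equivariant, so
`c (F s) = c(s)^l`) reduce to `S_LJ`. -/
def S_LOC : Prop := ∀ (J : Type) [Fintype J] (f : J → ℤ[X]) (L : J → Type) [∀ j, Field (L j)]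
  [∀ j, NumberField (L j)] (K : Type) [Field K] [NumberField K] [IsGalois ℚ K]
  (tt : (j : J) → 𝓞 (L j)) (io : (j : J) → Fin 3 → (L j →+* K)), Fld f tt io →
  ∀ (V : Type) [AddCommGroup V] [Fintype V] [DistribMulAction (K ≃ₐ[ℚ] K) V]
  (pm : (K ≃ₐ[ℚ] K) → J → Fin 3 → Fin 3) (cd : V →+ (J → Fin 3 → ZMod 2)), VS io pm cd →
  ∃ B1 : ℕ, B1 ≠ 0 ∧ ∀ B : ℕ, B1 ∣ B → B ≠ 0 → ∀ (κ μ : J → ℤ) (a : (j : J) → L j),
    ∀ l : ℕ, l.Prime → ¬ l ∣ B → ∀ (w : HeightOneSpectrum (𝓞 K)) (F : K ≃ₐ[ℚ] K), Abv w l →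
      Fb w l F → Loc w l F {z : V → 𝓞 K | ∃ (D : ℤ) (α : (j : J) → 𝓞 (L j)) (m : J → ℤ),
        Rel tt io cd B κ μ a D α m z}

/-! ## Part E: the count -/

open Classical in
/-- JOB CNTM. The sum of the numbers of the tuples of everywhere locally soluble coverings.
Proof (from `S_KX`, `S_VX`, `S_RPX`, `S_REL`, `S_LOC`, `S_MN`; compare `Pool/Agent/Q224/EA/SELC.lean`).  Choose `K, io`
(`S_KX`), `V, pm, cd` (`S_VX`), `ι, Lf, em, rp` (`S_RPX`), `B1` from `S_LOC`, and `B, C, K0, Qk, Qm, Qa` from `S_REL`.  For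
`κ ∈ Qk`, `μ ∈ Qm`, `a ∈ Qa` let `T` be the set of the `z` with `Rel` for some `D, α, m` and with nice `z (rp i)`; by
`S_LOC` and `S_MN` it has at most `C' X` elements with `|∏ z t| ≤ C X`.  For `D` and a tuple `(δ_j)_j`, `δ_j ∈ F j D`,
`δ_j = d_j(θ_j)`, choose `(κ, μ, a, z, α, m)` from `S_REL`.  The map `(D, (δ_j)) ↦ (κ, μ, a, z)` has fibres with at
most `2^(1 + ω(B))` elements: for `l ∤ B`, `l ∣ D` iff `z t ∈ w` for some `t` and some `w` above `l` (`Rel0.typ`, `S_TYP`), so `z`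
determines `D` up to the sign and the primes dividing `B`; and for given `D` the tuple is determined:
if `(α_j)`, `(α'_j)` belong to the same `(κ, μ, a, z)` let `P` be the product of the `z t` with `Tm cd t j 0`; by
`Rel.qa` `io j 0 (α_j) P = io j 0 (a_j q²)`, so `P = io j 0 y` with `y ∈ L_j`, and
`α_j α'_j y² = (a_j q q')²`, so `Tr (δ_j δ'_j)` and `δ_j = δ'_j`.  The types of the primes exist by `S_TYP`. -/
def S_CNTM : Prop := ∀ (J : Type) [Fintype J] (f : J → ℤ[X]) (L : J → Type) [∀ j, Field (L j)]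
  [∀ j, NumberField (L j)] (tt : (j : J) → 𝓞 (L j)), (∀ j, (f j).leadingCoeff = 1) →
  (∀ j, (f j).natDegree = 3) → (∀ j, Setup (f j) (L j) (tt j : L j)) →
  ∃ C : ℝ, 0 < C ∧ ∀ F : (j : J) → ℤ → Finset (L j),
    (∀ j, ∀ D : ℤ, ∀ δ ∈ F j D, δ ≠ 0 ∧ ∃ d : ℚ[X], aeval (tt j : L j) d = δ ∧
      ∀ (p : ℕ) [Fact p.Prime], Cov (f j) d
        ((((f j).leadingCoeff * D : ℤ) : ℚ) * Algebra.norm ℚ (aeval (tt j : L j) d)) ℚ_[p]) →
    (∀ j, ∀ D : ℤ, ∀ δ ∈ F j D, ∀ δ' ∈ F j D, δ ≠ δ' → ¬ Tr (L j) (δ * δ')) →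
    ∀ X : ℝ, 1 ≤ X →
      ((∑ D ∈ (Icc (-⌊X⌋) ⌊X⌋).filter (fun D : ℤ => Squarefree D), ∏ j, (F j D).card : ℕ) : ℝ) ≤
        C * X

end Pool.Agent.Q161.ESM
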