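import Pool.Agent.Q161.ESM.All

/-! # Project ESM: corollaries -/

set_option autoImplicit false

namespace Pool.Agent.Q161.ESM

open Finset Pool.Agent.Q161.EA

open scoped Classical

/-- joint moments of arbitrary order -/
theorem moments {r : ℕ} (a b : Fin r → ℤ) (hab : ∀ i, ∀ x : ℚ, x ^ 3 + a i * x + b i ≠ 0) (k : ℕ) :
    ∃ C : ℝ, 0 < C ∧ ∀ X : ℝ, 1 ≤ X →
      (∑ D ∈ twists X, ∏ i,
        ((2 ^ rank (a i) (b i) D * Nat.card (ShaTwo (a i) (b i) D) : ℕ) : ℝ) ^ k) ≤ C * X := by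
  obtain ⟨C, hC, h2⟩ := t_goalm (Fin r × Fin k) (fun j => a j.1) (fun j => b j.1)
    (fun j => irr (a j.1) (b j.1) (hab j.1))
  refine ⟨C, hC, fun X hX => ?_⟩
  have h3 := h2 X hX
  rw [Nat.cast_sum] at h3
  refine le_trans (Finset.sum_le_sum fun D hD => ?_) h3
  rw [Fintype.prod_prod_type, Nat.cast_prod]
  refine Finset.prod_le_prod (fun i _ => by positivity) fun i _ => ?_
  simp only [Finset.prod_const, Finset.card_univ, Fintype.card_fin, Nat.cast_pow]
  refine pow_le_pow_left₀ (by positivity) ?_ k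
  exact_mod_cast ((t_goal (a i) (b i) (irr (a i) (b i) (hab i))).1 D (squarefree_of_mem hD)).2.2

theorem fin_sha {a b : ℤ} (h : ∀ x : ℚ, x ^ 3 + a * x + b ≠ 0) {D : ℤ} (hD : Squarefree D) :
    Finite (ShaTwo a b D) := ((t_goal a b (irr a b h)).1 D hD).2.1

/-- Markov's inequality -/
theorem markov {X M : ℝ} (f : ℤ → ℝ) (hf : ∀ D ∈ twists X, 0 ≤ f D) (k : ℕ)
    (h : ∑ D ∈ twists X, f D ^ k ≤ M) {T : ℝ} (hT : 0 < T) :
    (((twists X).filter (fun D => T ≤ f D)).card : ℝ) ≤ M / T ^ k := by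
  rw [le_div_iff₀ (pow_pos hT k)]
  refine le_trans ?_ h
  refine le_trans ?_ (sum_le_sum_of_subset_of_nonneg (filter_subset (fun D => T ≤ f D) _)
    (fun D hD _ => pow_nonneg (hf D hD) k))
  rw [← nsmul_eq_mul]
  exact card_nsmul_le_sum _ _ _ fun D hD => pow_le_pow_left₀ hT.le (mem_filter.1 hD).2 k

/-- the inequality of the arithmetic and the geometric mean -/
theorem geom {ι : Type} (S : Finset ι) (hne : S.Nonempty) (g : ι → ℝ) (hg : ∀ i ∈ S, 0 ≤ g i) {M : ℝ}
    (h : ∑ i ∈ S, g i ≤ M) : ∏ i ∈ S, g i ≤ (M / S.card) ^ S.card := by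
  have hc : (0 : ℝ) < S.card := by exact_mod_cast hne.card_pos
  have h1 := Real.geom_mean_le_arith_mean_weighted S (fun _ => (1 : ℝ) / S.card) g
    (fun _ _ => by positivity) (by rw [sum_const, nsmul_eq_mul]; field_simp) hg
  have hprod : ∏ i ∈ S, g i = (∏ i ∈ S, g i ^ ((1 : ℝ) / S.card)) ^ S.card := by
    rw [← prod_pow]
    refine prod_congr rfl fun i hi => ?_
    have h0 := hg i hi
    generalize g i = y at h0 ⊢
    rw [← Real.rpow_natCast, ← Real.rpow_mul h0, one_div, inv_mul_cancel₀ hc.ne', Real.rpow_one]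
  rw [hprod]
  refine pow_le_pow_left₀ (prod_nonneg fun i hi => Real.rpow_nonneg (hg i hi) _) (h1.trans ?_) _
  rw [← mul_sum, one_div, div_eq_mul_inv, mul_comm]
  exact mul_le_mul_of_nonneg_right h (by positivity)

theorem one_term {r : ℕ} (f : Fin r → ℝ) (h : ∀ j, 1 ≤ f j) (i : Fin r) : f i ≤ ∏ j, f j := by
  rw [← mul_prod_erase univ f (mem_univ i)]
  refine le_mul_of_one_le_right (by linarith [h i]) ?_
  rw [← prod_const_one (s := univ.erase i)]
  exact prod_le_prod (fun _ _ => zero_le_one) fun j _ => h j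

end Pool.Agent.Q161.ESM
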