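import Pool.Agent.Q161.ESM.Stm1
import Pool.Agent.Q161.EA.Stm

/-!
# Project ESM (helper161), part 2: the variables attached to a Galois module

`K` a number field, Galois over `ℚ`, `G = Gal(K/ℚ)`; `V` a finite elementary abelian 2-group on which `G`
acts, semisimple, without invariants.  The vectors of the sieve are the equivariant functions
`z : V → 𝓞 K`, `z (g t) = g (z t)`; so `z t` lies in the field `F_t` of the stabilizer of `t`, `[F_t : ℚ]` = the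
number of the elements of the orbit of `t`, and `∏_t z t ∈ ℤ`.  Let `𝔩` be a prime of `K` above `l`, `F` the
Frobenius element.  Local conditions for a set `T` of such functions:

(`Loc1`) if `z t ∈ 𝔩` then `F t = t`, and `z s ∉ 𝔩` for `s ≠ t` (`z` has the type `t` at `𝔩`);
(`Loc2`) if `z, z'` have the same type `t` then for all linear `φ : V → F_2` with `φ ∘ F = φ` the product of the
`z s * z' s` over the `s` with `φ(s - t) ≠ 0` (an element of `F_l`) is a square.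

THEOREM (`S_MN`).  If all `z t` are nice, `T` has at most `C X` elements with `|∏ z t| ≤ X`.

The classes modulo `l` of the equivariant functions are the functions `c : V → k = 𝓞 K/𝔩` with
`c (F s) = c(s)^l`; and the quadratic character of the component of the place given by the orbit `w` of `s`
under `F` is `(∏_{s ∈ w} c s)^((l-1)/2)`.
-/

set_option autoImplicit false

namespace Pool.Agent.Q161.ESM

open NumberField IsDedekindDomain Finset
open Pool.Agent.Q51.EL (pr Abv N1)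
open Pool.Agent.Q161.EA (Un Nice)

/-! ## Part A: exceptional values of one variable -/

section L

variable (L : Type) [Field L] [NumberField L]

/-- `ψ_l` is for all `l ∈ P` a nontrivial quadratic character modulo `l` (compare `EA.Chr`) -/
structure ChP (B : ℕ) (P : Set ℕ) (ψ : ℕ → 𝓞 L → ℝ) : Prop where
  mul : ∀ (l : ℕ) (α β : 𝓞 L), ψ l (α * β) = ψ l α * ψ l β
  abs : ∀ (l : ℕ) (α : 𝓞 L), |ψ l α| ≤ 1
  red : ∀ (l : ℕ) (α β : 𝓞 L), l.Prime → (l : 𝓞 L) ∣ α - β → ψ l α = ψ l β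
  neg : ∀ l : ℕ, l.Prime → ¬ l ∣ B → l ∈ P → ∃ u w : 𝓞 L, (l : 𝓞 L) ∣ u * w - 1 ∧ ψ l u = -1
  unit : ∀ (l : ℕ) (α : 𝓞 L), l.Prime → ¬ l ∣ B → l ∈ P → Un l α → ψ l α = 1 ∨ ψ l α = -1

end L

/-- JOB LSF2. The large sieve for characters: `EA.S_LSF` with `l ∈ P0` instead of `1 ≤ N1 L l`.
Proof: adapt `Pool/Agent/Q237/EA/Lsf.lean` (or deduce it from the statement there for the characters which
are equal to `ψ l` for `l ∈ P`..). -/
def S_LSF2 : Prop := ∀ (L : Type) [Field L] [NumberField L], ∃ C : ℝ, 0 < C ∧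
  ∀ (B : ℕ) (P0 : Set ℕ) (ψ : ℕ → 𝓞 L → ℝ), ChP L B P0 ψ →
  ∀ (W R : ℝ) (P : Finset ℕ) (A : Finset (𝓞 L)) (c : 𝓞 L → ℝ), 1 ≤ W → 1 ≤ R →
    (∀ l ∈ P, l.Prime ∧ ¬ l ∣ B ∧ l ∈ P0 ∧ (l : ℝ) ≤ R) →
    (∀ α ∈ A, ∀ σ : L →+* ℂ, ‖σ (α : L)‖ ≤ W) →
    ∑ l ∈ P, (∑ α ∈ A, c α * ψ l α) ^ 2 ≤ (C * (W + R ^ 2)) ^ Module.finrank ℚ L * ∑ α ∈ A, c α ^ 2

/-- JOB MOM2. High moments: `EA.S_MOM` with `l ∈ P0` instead of `1 ≤ N1 L l`, and any power `a` of the
logarithm.  Proof (from `S_LSF2`, and `Q195.EA.Fac.fac`, `Q195.EA.Omg.omg`): adapt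
`Pool/Agent/Q237/EA/Mom.lean` (`b`, `Y0` depend on `a`). -/
def S_MOM2 : Prop := ∀ (L : Type) [Field L] [NumberField L] (B : ℕ) (P0 : Set ℕ) (ψ : ℕ → 𝓞 L → ℝ)
  (K a : ℝ), ChP L B P0 ψ → ∃ b Y0 : ℝ, 0 < b ∧ 16 ≤ Y0 ∧
  ∀ (Y R : ℝ) (A : Finset (𝓞 L)) (P : Finset ℕ), Y0 ≤ Y →
    Real.sqrt Y ≤ R → Real.log R ≤ Real.log Y ^ (1 + b) →
    (∀ α ∈ A, Nice K α ∧ ∀ σ : L →+* ℂ, ‖σ (α : L)‖ ≤ Y) →
    Y ^ Module.finrank ℚ L ≤ A.card * Real.log Y ^ a →
    (∀ l ∈ P, l.Prime ∧ ¬ l ∣ B ∧ l ∈ P0 ∧ (l : ℝ) ≤ 2 * R ∧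
      (A.card : ℝ) / 4 < |∑ α ∈ A, ψ l α|) →
    (P.card : ℝ) ≤ R ^ (9 / 10 : ℝ)

open Classical in
/-- JOB EXC2. The exceptional values.
Proof (from `S_MOM2`): adapt `Pool/Agent/Q63/EA/Exc.lean`, `Exc0.lean`, `Exc1.lean`.  There the primes with
`N1 L l ≥ 1` are used, and `S_MER`; here the primes in `P0`, for which
`∑_{l ∈ I_s, l ∈ P0} 1/l ≥ c log a - 2 A - ∑_{l ∣ B} 1/l > 0`.  The exceptional `α` lie in the union of at most
`C log log Y` sets `E_s`, each with at most `Y^n / (log Y)^(A0+1)` elements (`S_MOM2` with `a = A0 + 1`), and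
`E` is contained in it. -/
def S_EXC2 : Prop := ∀ (L : Type) [Field L] [NumberField L] (B : ℕ) (P0 : Set ℕ)
  (ψ : ℕ → 𝓞 L → ℝ) (K A c A0 : ℝ), B ≠ 0 → 0 < c →
  (∀ Y : ℝ, 3 ≤ Y →
    |∑ l ∈ (pr Y).filter (fun l => l ∈ P0), (1 : ℝ) / l - c * Real.log (Real.log Y)| ≤ A) →
  ChP L B P0 ψ → ∃ b C Y0 : ℝ, 0 < b ∧ 16 ≤ Y0 ∧
  ∀ (Y : ℝ) (ε : ℕ → ℝ) (E : Finset (𝓞 L)), Y0 ≤ Y → (∀ l, ε l = 1 ∨ ε l = -1) →
    (∀ α ∈ E, Nice K α ∧ (∀ σ : L →+* ℂ, ‖σ (α : L)‖ ≤ Y) ∧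
      ∃ Z : ℝ, Real.sqrt Y ≤ Z ∧ Real.log Z ≤ Real.log Y ^ (1 + b) ∧
        ∑ l ∈ (pr Z).filter (fun l : ℕ => Real.sqrt Y < (l : ℝ) ∧ ¬ l ∣ B ∧ l ∈ P0 ∧
          ψ l α = - ε l), (1 : ℝ) / l < b * Real.log (Real.log Z / Real.log Y) - C) →
    (E.card : ℝ) * Real.log Y ^ A0 ≤ Y ^ Module.finrank ℚ L

/-! ## Part B: finite modules and finite fields -/

/-- `W` is stable under `G` -/
def GSt (G : Type) {V : Type} [Group G] [AddCommGroup V] [DistribMulAction G V] (W : AddSubgroup V) :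
    Prop := ∀ g : G, ∀ v ∈ W, g • v ∈ W

/-- `V` is semisimple -/
def Semi (G V : Type) [Group G] [AddCommGroup V] [DistribMulAction G V] : Prop :=
  ∀ W : AddSubgroup V, GSt G W → ∃ W' : AddSubgroup V, GSt G W' ∧ IsCompl W W'

/-- `S` is a subgroup -/
def IsSub {V : Type} [AddCommGroup V] (S : Set V) : Prop := (0 : V) ∈ S ∧ ∀ a ∈ S, ∀ b ∈ S, a + b ∈ S

open Classical in
/-- the number of the functions `s ↦ φ(s - t)` on `S`, `φ` linear and invariant under `F` -/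
noncomputable def NS {V : Type} [AddCommGroup V] (F : V → V) (S : Set V) (t : V) : ℕ :=
  {h : V → ZMod 2 | ∃ φ : V →+ ZMod 2, (∀ s, φ (F s) = φ s) ∧
    ∀ s, h s = if s ∈ S then φ (s - t) else 0}.ncard

/-- JOB KEY. The number of the types is at most the number of the characters.
Proof.  `W` = the subgroup generated by the differences of the elements of `S`: `G`-stable, so `V = W ⊕ W'`,
`W'` `G`-stable.  Restriction to `W` of the `F`-invariant linear forms `φ` of `V`; the forms of `W` invariant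
under `F` extend to `V` (by `0` on `W'`).  Two forms `φ` give the same function on `S` iff they agree on `W`
(`t ∈ S`; the `s - t`, `s ∈ S`, generate `W`).  So `NS` is the number of the `F`-invariant forms of `W`, which is
the order of the dual of `W/(F-1)W`, `= #(W/(F-1)W) = #ker(F-1 | W) = #{w ∈ W : F w = w}` (finite groups
killed by 2).  And `s ↦ s - t` maps `{s ∈ S | F s = s}` injectively into it.  Second part (`F` trivial): `NS = #W`;
if `#S ≥ #W` then `S = t + W`; then for all `g` `g t - t ∈ W`; write `t = w + w'` (`w' ∈ W'`): `g w' - w' ∈ W ∩ W' = 0`,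
so `w'` is invariant, `w' = 0`, `t ∈ W`, `S = W` is a subgroup. -/
def S_KEY : Prop := ∀ (G V : Type) [Group G] [AddCommGroup V] [Finite V] [DistribMulAction G V],
  (∀ v : V, v + v = 0) → Semi G V → (∀ v : V, (∀ g : G, g • v = v) → v = 0) →
  ∀ S : Set V, (∀ g : G, ∀ s ∈ S, g • s ∈ S) → ∀ (F : G) (t : V), t ∈ S → F • t = t →
    {s | s ∈ S ∧ F • s = s}.ncard ≤ NS (fun s => F • s) S t ∧
    ((∀ s : V, F • s = s) → ¬ IsSub S → S.ncard + 1 ≤ NS (fun s => F • s) S t)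

section field

variable {k V : Type} [Field k] [AddCommGroup V]

/-- `c` is compatible with the Frobenius element -/
def EqF (l : ℕ) (F : V → V) (c : V → k) : Prop := ∀ s, c (F s) = c s ^ l

end field

/-- JOB LCU. The number of the functions without zeros.
Proof.  `c` is determined by its values at representatives `s` of the orbits `w ⊆ S` of `F`; the value at `s`
satisfies `c(s)^(l^#w) = c(s)`, `≠ 0`: at most `l^#w - 1` possibilities.  So at most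
`∏_w (l^#w - 1) ≤ (l-1)^N l^(#S - N) = l^#S (1 - 1/l)^N ≤ l^#S (1 - N/l + N²/l²)`. -/
def S_LCU : Prop := ∀ (k V : Type) [Field k] [Fintype k] [AddCommGroup V] [Fintype V] [DecidableEq V]
  (l : ℕ), l.Prime → ∀ (F : V → V), Function.Bijective F →
  ∀ (S : Finset V), (∀ s, s ∈ S ↔ F s ∈ S) → ∀ z : V → k,
    (({c : V → k | EqF l F c ∧ (∀ s, s ∉ S → c s = z s) ∧ ∀ s ∈ S, c s ≠ 0}.ncard : ℕ) : ℝ) ≤
      (l : ℝ) ^ S.card * (1 - ((S.filter (fun s => F s = s)).card : ℝ) / l +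
        (Fintype.card V : ℝ) ^ 2 / (l : ℝ) ^ 2)

/-- JOB LCT. The number of the functions of type `t` with given characters.
Proof.  Let `c0` be one of the functions (if there is none, `0 ≤ ..`).  The quotients `u = c/c0` on `S \ {t}`
(extended by `1`) form a coset.. more precisely the set in question is in bijection with the set of the
`u : V → k`, `u (F s) = u(s)^l`, `u = 1` outside `S \ {t}`, `u` without zeros, with `Ξ_φ(u) = 1` for all invariant `φ`,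
`Ξ_φ(u) = (∏_{φ(s-t) ≠ 0} u s)^((l-1)/2)`.  This is a subgroup `H` of the finite abelian group `𝒰` of all such
`u` without the condition on the `Ξ_φ`, `#𝒰 = ∏_{w ⊆ S \ {t}} (l^#w - 1) ≤ l^(#S - 1)` (orbits of `F`; `c(s)^(l^#w) = c(s)`).
`Ξ_φ : 𝒰 → {1, -1}` (the product over the `s` with `φ(s-t) ≠ 0` is invariant under `x ↦ x^l`, so it lies in
`F_l^*`), `φ ↦ Ξ_φ` is a homomorphism (`φ + φ'`: the product over the `s` with `φ(s-t) ≠ 0` and `φ'(s-t) ≠ 0`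
occurs twice), and `Ξ_φ` is trivial on `𝒰` only if `φ(s - t) = 0` for all `s ∈ S`: otherwise let `w ⊆ S` be the
orbit of such an `s`; `s ≠ t`; choose `u` on `w` with `u(s)` a generator of `F_(l^#w)^*` (here `#k = l^f`,
`F^f = 1` is used: `#w ∣ f`, so `k` contains `F_(l^#w)`), `u = 1` elsewhere; `Ξ_φ(u) = N(u(s))^((l-1)/2) = -1`
(`N` = the norm to `F_l`, it maps a generator to a generator).  So the group of the characters `Ξ_φ` of `𝒰`
has `NS F S t` elements, and `#H = #𝒰 / NS` (duality, or: by induction an independent set of `r` characters of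
order 2 has a common kernel of index `2^r`; or orthogonality: `#H * #Φ = ∑_φ ∑_u Ξ_φ(u) = #{φ : Ξ_φ = 1} * #𝒰`). -/
def S_LCT : Prop := ∀ (k V : Type) [Field k] [Fintype k] [AddCommGroup V] [Fintype V] [DecidableEq V]
  (l f : ℕ), l.Prime → l ≠ 2 → Fintype.card k = l ^ f → (∀ v : V, v + v = 0) →
  ∀ (F : V →+ V), Function.Bijective F → (∀ s, F^[f] s = s) →
  ∀ (S : Finset V), (∀ s, s ∈ S ↔ F s ∈ S) → ∀ (z : V → k) (t : V), t ∈ S → F t = t →
  ∀ ξ : (V →+ ZMod 2) → k,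
    (({c : V → k | EqF l F c ∧ (∀ s, s ∉ S → c s = z s) ∧ c t = 0 ∧ (∀ s, s ≠ t → c s ≠ 0) ∧
      ∀ φ : V →+ ZMod 2, (∀ s, φ (F s) = φ s) →
        (∏ s ∈ univ.filter (fun s => φ (s - t) ≠ 0), c s) ^ ((l - 1) / 2) = ξ φ}.ncard : ℕ) : ℝ) *
      NS F (S : Set V) t ≤ (l : ℝ) ^ (S.card - 1)

/-! ## Part C: equivariant functions -/

section K

variable {K : Type} [Field K] [NumberField K] {V : Type} [AddCommGroup V]
  [DistribMulAction (K ≃ₐ[ℚ] K) V]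

/-- `z` is equivariant -/
def Eqv (z : V → 𝓞 K) : Prop := ∀ (g : K ≃ₐ[ℚ] K) (t : V), ((z (g • t) : 𝓞 K) : K) = g (z t : K)

/-- `F` is a Frobenius element at the prime `w` above `l` -/
def Fb (w : HeightOneSpectrum (𝓞 K)) (l : ℕ) (F : K ≃ₐ[ℚ] K) : Prop :=
  ∀ x y : 𝓞 K, (y : K) = F (x : K) → y - x ^ l ∈ w.asIdeal

/-- the local conditions at `w` -/
structure Loc (w : HeightOneSpectrum (𝓞 K)) (l : ℕ) (F : K ≃ₐ[ℚ] K) [Fintype V]
    (T : Set (V → 𝓞 K)) : Prop where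
  one : ∀ z ∈ T, ∀ t, z t ∈ w.asIdeal → F • t = t ∧ ∀ s, s ≠ t → z s ∉ w.asIdeal
  two : ∀ z ∈ T, ∀ z' ∈ T, ∀ t, z t ∈ w.asIdeal → z' t ∈ w.asIdeal →
    ∀ φ : V →+ ZMod 2, (∀ s, φ (F • s) = φ s) →
      (∏ s ∈ univ.filter (fun s => φ (s - t) ≠ 0), z s * z' s) ^ ((l - 1) / 2) - 1 ∈ w.asIdeal

/-- representatives `rp i` of the orbits of `V`, and the fields `Lf i` of their stabilizers -/
structure Rp {ι : Type} (Lf : ι → Type) [∀ i, Field (Lf i)] (em : (i : ι) → Lf i →+* K) (rp : ι → V) :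
    Prop where
  fix : ∀ (i : ι) (x : K), (∀ g : K ≃ₐ[ℚ] K, g • rp i = rp i → g x = x) ↔ ∃ y : Lf i, em i y = x
  orb : ∀ t : V, ∃! i : ι, ∃ g : K ≃ₐ[ℚ] K, g • rp i = t

/-- `ev` is the isomorphism of `∏ 𝓞 (Lf i)` with the ring of the equivariant functions -/
structure IsEv {ι : Type} {Lf : ι → Type} [∀ i, Field (Lf i)] [∀ i, NumberField (Lf i)]
    (em : (i : ι) → Lf i →+* K) (rp : ι → V) (ev : ((i : ι) → 𝓞 (Lf i)) →+* (V → 𝓞 K)) : Prop where
  eqv : ∀ x, Eqv (ev x)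
  val : ∀ x i, ((ev x (rp i) : 𝓞 K) : K) = em i (x i : Lf i)
  sur : ∀ z : V → 𝓞 K, Eqv z → ∃ x, ev x = z

/-- JOB RPX. Existence of representatives: `ι` = the type of the orbits, `Lf i` = the fixed field of the
stabilizer of a representative (`IntermediateField.fixedField`); main theorem of Galois theory. -/
def S_RPX : Prop := ∀ (K : Type) [Field K] [NumberField K] [IsGalois ℚ K] (V : Type) [AddCommGroup V]
  [Finite V] [DistribMulAction (K ≃ₐ[ℚ] K) V],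
  ∃ (ι : Type) (_ : Fintype ι) (_ : DecidableEq ι) (Lf : ι → Type) (_ : ∀ i, Field (Lf i))
    (_ : ∀ i, NumberField (Lf i)) (em : (i : ι) → Lf i →+* K) (rp : ι → V), Rp Lf em rp

/-- JOB EVX. The isomorphism `ev`: `ev x (g • rp i) = g (em i (x i))` (well defined by `Rp.fix`; a ring
homomorphism; surjective: `z (rp i)` is fixed by the stabilizer of `rp i`, so it is `em i y`, and `y` is integral;
injectivity follows from `val`).  Moreover `Lf i` has degree `#(orbit of rp i)`. -/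
def S_EVX : Prop := ∀ (K : Type) [Field K] [NumberField K] [IsGalois ℚ K] (V : Type) [AddCommGroup V]
  [Finite V] [DistribMulAction (K ≃ₐ[ℚ] K) V] (ι : Type) (Lf : ι → Type) [∀ i, Field (Lf i)]
  [∀ i, NumberField (Lf i)] (em : (i : ι) → Lf i →+* K) (rp : ι → V), Rp Lf em rp →
  (∃ ev : ((i : ι) → 𝓞 (Lf i)) →+* (V → 𝓞 K), IsEv em rp ev) ∧
  ∀ i, Module.finrank ℚ (Lf i) = {t : V | ∃ g : K ≃ₐ[ℚ] K, g • rp i = t}.ncard

/-- JOB FRX. Frobenius elements and unramified primes.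
Proof.  Existence: Mathlib (`IsArithFrobAt`, `exists_arithFrob..`) or the library (search for Frobenius;
`Pool/Agent/Q150/SX/..`, `Q224/OD/CHB.lean`).  Order: `F^f` acts trivially on `𝓞 K/w`, so `F^f` lies in the inertia
group, which is trivial, as `l` is unramified.  `F` maps `w` to itself (`y ≡ x^l`). -/
def S_FRX : Prop := ∀ (K : Type) [Field K] [NumberField K] [IsGalois ℚ K],
  ∃ B : ℕ, B ≠ 0 ∧ ∀ l : ℕ, l.Prime → ¬ l ∣ B → Squarefree (Ideal.span {(l : 𝓞 K)}) ∧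
    (∃ w : HeightOneSpectrum (𝓞 K), Abv w l) ∧
    ∀ w : HeightOneSpectrum (𝓞 K), Abv w l →
      (∃ F : K ≃ₐ[ℚ] K, Fb w l F) ∧
      ∀ F : K ≃ₐ[ℚ] K, Fb w l F → ∃ f : ℕ, 0 < f ∧ Nat.card (𝓞 K ⧸ w.asIdeal) = l ^ f ∧ F ^ f = 1 ∧
        (N1 K l = Module.finrank ℚ K → F = 1 ∧ f = 1) ∧
        (N1 K l ≠ Module.finrank ℚ K → N1 K l = 0)

/-- JOB RES. The classes modulo `l`.
Proof (from `S_EVX`).  `k = 𝓞 K/w`.  For `x ∈ ∏ 𝓞 (Lf i)` let `c(s)` be the class of `ev x s`.  `c(F s) = c(s)^l` (`Fb`).  If `c = 0` then for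
all `g` and `i`: `g (em (x i)) ∈ w`, so `em (x i)` lies in all primes `g⁻¹ w` above `l`, so (unramified) it is `l` times
an element of `𝓞 K`, and then `x i ∈ l 𝓞 (Lf i)`; so the map `∏ 𝓞 (Lf i)/l → {c | EqF l F c}` is injective.  The first
set has `l^(∑ n i) = l^#V` elements (`n i` = the number of the elements of the orbit), the second one at
most `∏_w l^#w = l^#V` (orbits `w` of `F` on `V`).  So it is bijective.  The coordinates with respect to the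
basis `bs i` identify `𝓞 (Lf i)/l` with `(ℤ/l)^(n i)`. -/
def S_RES : Prop := ∀ (K : Type) [Field K] [NumberField K] [IsGalois ℚ K] (V : Type) [AddCommGroup V]
  [Finite V] [DistribMulAction (K ≃ₐ[ℚ] K) V] (ι : Type) [Fintype ι] (Lf : ι → Type)
  [∀ i, Field (Lf i)] [∀ i, NumberField (Lf i)] (em : (i : ι) → Lf i →+* K) (rp : ι → V),
  Rp Lf em rp → ∀ (ev : ((i : ι) → 𝓞 (Lf i)) →+* (V → 𝓞 K)), IsEv em rp ev →
  ∀ (n : ι → ℕ) (bs : (i : ι) → Module.Basis (Fin (n i)) ℤ (𝓞 (Lf i))) (l : ℕ), l.Prime →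
    Squarefree (Ideal.span {(l : 𝓞 K)}) → ∀ w : HeightOneSpectrum (𝓞 K), Abv w l →
    ∀ F : K ≃ₐ[ℚ] K, Fb w l F →
    ∃ R : Vm n l → (V → 𝓞 K ⧸ w.asIdeal), Function.Injective R ∧
      (∀ c : V → 𝓞 K ⧸ w.asIdeal, (∃ y, R y = c) ↔ ∀ s, c (F • s) = c s ^ l) ∧
      (∀ x : Vc n, R (rd n l x) =
        fun s => Ideal.Quotient.mk w.asIdeal (ev (fun i => ∑ j, x i j • bs i j) s)) ∧
      ∀ (y y' : Vm n l) (i : ι), y i = y' i ↔
        ∀ g : K ≃ₐ[ℚ] K, R y (g • rp i) = R y' (g • rp i)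

/-- JOB N1F. The primes of degree one of `Lf i` above `l` are the fixed points of the Frobenius element on the
orbit of `rp i`.
Proof.  The primes of `Lf i` above `l` are the sets `{x | g (em x) ∈ w}`, `g ∈ G`; two of them, for `g`, `g'`, are equal
iff `g' rp i = F^m g rp i` for some `m` (the decomposition group of `w` is generated by `F`, `l` is unramified),
and the norm is `l` iff `F g rp i = g rp i` (`x^l ≡ x` for all `x`).  Or by counting: by the Chinese remainder theorem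
(`S_RES` for the orbit) the number of the ring homomorphisms `𝓞 (Lf i) → F_l` is the number of the `s` in the
orbit with `F s = s`. -/
def S_N1F : Prop := ∀ (K : Type) [Field K] [NumberField K] [IsGalois ℚ K] (V : Type) [AddCommGroup V]
  [Finite V] [DistribMulAction (K ≃ₐ[ℚ] K) V] (ι : Type) (Lf : ι → Type) [∀ i, Field (Lf i)]
  [∀ i, NumberField (Lf i)] (em : (i : ι) → Lf i →+* K) (rp : ι → V), Rp Lf em rp →
  ∀ (l : ℕ), l.Prime → Squarefree (Ideal.span {(l : 𝓞 K)}) → ∀ w : HeightOneSpectrum (𝓞 K),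
    Abv w l → ∀ F : K ≃ₐ[ℚ] K, Fb w l F → ∀ i : ι,
    N1 (Lf i) l = {s : V | (∃ g : K ≃ₐ[ℚ] K, g • rp i = s) ∧ F • s = s}.ncard

end K

/-! ## Part D: the system -/

/-- JOB SYS. The data of the sieve, and their properties.
Proof (from `S_KEY`, `S_LCU`, `S_LCT`, `S_EVX`, `S_FRX`, `S_RES`, `S_N1F`, `EA.S_MER`, `S_EXC2`).  Let `B'` be a
multiple of `2 B` and of the number of `S_FRX` for `K`.  `n i = [Lf i : ℚ]`, `bs i` a basis (`Q247.EL.exists_basis`: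
the coordinates are bounded by `C max ‖σ x‖`).  For each prime `l ∤ B'` choose `w_l` above `l` and a Frobenius
element `F_l`, and `R_l` from `S_RES`.  `Om l` = the set of the `y` such that `c = R_l y` has no zeros, or
`c t = 0` for exactly one `t`, `F_l t = t`, and there is a `z' ∈ T` with `z' t ∈ w_l` and
`(∏_{φ(s-t) ≠ 0} c s * z' s)^((l-1)/2) = 1` for all invariant `φ`.  `U l i` = the `y i` such that `R_l y` has no zeros
on the orbit of `rp i`.  `Nm i x` = the absolute norm of `∑ x_j bs i j`, `Nc i` = the coordinates of the nice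
elements, `N1 i l = N1 (Lf i) l`, `sp` = the primes with `N1 K l = [K : ℚ]`; `S ⊆ ι` corresponds to the union
`V_S ⊆ V` of orbits; `Bad S`: `V_S` is a subgroup; `Inc S l x`: all `y ∈ Om l` which agree with `rd n l x` outside
`S` are in `U l i0` for the orbit `i0` of `0 ∈ V`.
`Ok`: `dens`: the classes with units outside `S` are: units everywhere (`S_LCU`), or of a type `t ∈ V_S`,
`F t = t`: for each `t` at most `l^(#V_S - 1)/NS` (`S_LCT`, `ξ φ` given by the `z'`; `T` satisfies `Loc`, so all `z'` of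
type `t` give the same), `NS ≥ #{s ∈ V_S | F s = s}` (`S_KEY`); together `≤ l^(#V_S - 1)`; and `∑_{i ∈ S} N1 i l` =
the number of the fixed points in `V_S` (`S_N1F`), `∑_{i ∈ S} n i = #V_S`.  `good`: `F = 1`, `NS ≥ #V_S + 1`, so the
types contribute `≤ l^(#V_S - 1) (1 - κ)`, `κ = 1/(#V + 1)`.  `bad`: there is no class of type `0`; at most
`#V_S - 1` types, each `≤ l^(#V_S - 1)/#V_S`.  `mer`: `EA.S_MER` for `Lf i`; `mes`: `EA.S_MER` for `K`
(`N1 K l ∈ {0, [K : ℚ]}` for unramified `l`), `c = 1/[K : ℚ]`.  `cU`: a class of `𝓞 (Lf i)/l` is not a unit iff one of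
the values `c s`, `s` in the orbit, is zero, the whole orbit of `s` under `F` is zero then. -/
def S_SYS : Prop := ∀ (K : Type) [Field K] [NumberField K] [IsGalois ℚ K] (V : Type) [AddCommGroup V]
  [Fintype V] [DistribMulAction (K ≃ₐ[ℚ] K) V], (∀ v : V, v + v = 0) → Semi (K ≃ₐ[ℚ] K) V →
  (∀ v : V, (∀ g : K ≃ₐ[ℚ] K, g • v = v) → v = 0) →
  ∀ (ι : Type) [Fintype ι] [DecidableEq ι] (Lf : ι → Type) [∀ i, Field (Lf i)]
  [∀ i, NumberField (Lf i)] (em : (i : ι) → Lf i →+* K) (rp : ι → V), Rp Lf em rp →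
  ∀ (ev : ((i : ι) → 𝓞 (Lf i)) →+* (V → 𝓞 K)), IsEv em rp ev →
  ∀ (B : ℕ) (K0 : ℝ) (T : Set (V → 𝓞 K)), B ≠ 0 →
  (∀ z ∈ T, Eqv z ∧ ∀ i, ∃ α : 𝓞 (Lf i), em i (α : Lf i) = (z (rp i) : K) ∧ Nice K0 α) →
  (∀ l : ℕ, l.Prime → ¬ l ∣ B → ∀ (w : HeightOneSpectrum (𝓞 K)) (F : K ≃ₐ[ℚ] K), Abv w l →
    Fb w l F → Loc w l F T) →
  ∃ (n : ι → ℕ) (bs : (i : ι) → Module.Basis (Fin (n i)) ℤ (𝓞 (Lf i))) (s : Sy n) (A c κ C1 : ℝ),
    Ok s A c κ ∧ Ex s ∧ 0 < C1 ∧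
    (∀ (i : ι) (x : Fin (n i) → ℤ) (Y : ℝ),
      (∀ σ : Lf i →+* ℂ, ‖σ ((∑ j, x j • bs i j : 𝓞 (Lf i)) : Lf i)‖ ≤ Y) → ∀ j, |(x j : ℝ)| ≤ C1 * Y) ∧
    (∀ x : Vc n, ev (fun i => ∑ j, x i j • bs i j) ∈ T → (∀ l : ℕ, l.Prime → ¬ l ∣ s.B →
      rd n l x ∈ s.Om l) ∧ ∀ i, x i ∈ s.Nc i)

/-- JOB MN. The number of the elements of `T`.
Proof (from `S_SYS`, `S_AN`, `S_EVX`).  `z ∈ T` is `ev (∑ x_ij bs_ij)` for exactly one `x`; let
`T' = {x | ev .. ∈ T}`, `InT s T'`.  `|∏_t z t| = ∏_i |N(α_i)|` (`α_i` the value at `rp i`; the `σ (z t)`, `t` in the orbit of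
`rp i`, are the conjugates of `α_i`), and `α_i` is nice, so `‖σ α_i‖^(n i) ≤ K0 |N α_i|`, `|x_ij| ≤ C1 (K0 |N α_i|)^(1/n i) ≤ H_i`,
`H_i = ⌈C1 (K0 |N α_i|)^(1/n i)⌉ + 1`, `∏ H_i^(n i) ≤ C ∏ |N α_i| ≤ C X`.  Then `S_AN`. -/
def S_MN : Prop := ∀ (K : Type) [Field K] [NumberField K] [IsGalois ℚ K] (V : Type) [AddCommGroup V]
  [Fintype V] [DistribMulAction (K ≃ₐ[ℚ] K) V], (∀ v : V, v + v = 0) → Semi (K ≃ₐ[ℚ] K) V →
  (∀ v : V, (∀ g : K ≃ₐ[ℚ] K, g • v = v) → v = 0) →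
  ∀ (ι : Type) [Fintype ι] [DecidableEq ι] (Lf : ι → Type) [∀ i, Field (Lf i)]
  [∀ i, NumberField (Lf i)] (em : (i : ι) → Lf i →+* K) (rp : ι → V), Rp Lf em rp →
  ∀ (B : ℕ) (K0 : ℝ) (T : Set (V → 𝓞 K)), B ≠ 0 →
  (∀ z ∈ T, Eqv z ∧ ∀ i, ∃ α : 𝓞 (Lf i), em i (α : Lf i) = (z (rp i) : K) ∧ Nice K0 α) →
  (∀ l : ℕ, l.Prime → ¬ l ∣ B → ∀ (w : HeightOneSpectrum (𝓞 K)) (F : K ≃ₐ[ℚ] K), Abv w l →
    Fb w l F → Loc w l F T) →
  ∃ C : ℝ, 0 < C ∧ ∀ X : ℝ, 1 ≤ X →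
    {z ∈ T | ∃ N : ℤ, ∏ t, z t = (N : 𝓞 K) ∧ |(N : ℝ)| ≤ X}.Finite ∧
    (({z ∈ T | ∃ N : ℤ, ∏ t, z t = (N : 𝓞 K) ∧ |(N : ℝ)| ≤ X}.ncard : ℕ) : ℝ) ≤ C * X

end Pool.Agent.Q161.ESM
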