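import Pool.Agent.Q161.ESM.Stm3

/-!
# Project ESG (helper161), part 1: a general descent interface

The theorem of project ESM for more general abelian varieties: products of Jacobians of hyperelliptic curves
`y² = f(x)`, `f` irreducible of odd degree (over `ℚ` or over a Galois extension of odd degree of `ℚ`).

`C` is a finite set (the curves), `L c = Bs c (θ_c)`, `Bs c` the base field, `[L c : Bs c]` odd; `K` a number field, Galois
over `ℚ`, containing all the `L c`.  The embeddings `L c → K` with a given restriction to `Bs c` form a block.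
`V` = the functions `e : (c, ι) ↦ F_2` on the embeddings `ι : L c → K`, with sum zero over each block; so for
`Bs c = ℚ` it is the product of the modules `J_c[2]` (`e` ↔ the sum of the points `(ι θ, 0)`, `e ι = 1`).

The elements of the 2-Selmer group of the twist by `D` are represented by `δ ∈ L c`, modulo squares, which
satisfy the local conditions `Gd1`: for a prime `w` above `l ∣ D` there is a `t ∈ V` (the type), fixed by Frobenius,
such that the class of `δ` at `l` is the one of the point `t` of order two of the twist by `D`; that is, `ι δ` has odd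
valuation iff `t ι = 1`, and `ι δ * D^(t ι) * uu ι` is a local square, where
`uu ι = ∏_{t ι' = 1} (ι θ - ι' θ)` if `t ι = 0` and `uu ι = - ∏_{t ι' = 0} (ι θ - ι' θ)` if `t ι = 1`.
As in part 3 of project ESM there are integral `z t`, `t ∈ V`, with `δ_c ~ ∏_{t ι = 1} z t` (at the embedding `ι`) and
`D ~ ∏_t z t`, and `S_MN` gives: `∑_{|D| ≤ X} ∏_c #{δ} = O(X)` (`S_CNTG`), if `V` is semisimple.
-/

set_option autoImplicit false

namespace Pool.Agent.Q161.ESM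

open Polynomial NumberField IsDedekindDomain Finset
open Pool.Agent.Q51.EL (Abv Par)
open Pool.Agent.Q161.EA (Nice)

section one

variable {K : Type} [Field K] [NumberField K] {L : Type} [Field L] [NumberField L] {Bs : Type} [Field Bs]

/-- the embedding `g ∘ ι` -/
def cp (g : K ≃ₐ[ℚ] K) (ι : L →+* K) : L →+* K := (g : K →+* K).comp ι

/-- `Y` is a square in `ℚ_l` (for elements `Y` fixed by a Frobenius element at `w`) -/
def QR (w : HeightOneSpectrum (𝓞 K)) (l : ℕ) (Y : K) : Prop :=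
  ∃ k : ℤ, w.valuation K ((Y * (l : K) ^ (2 * k)) ^ ((l - 1) / 2) - 1) < 1

open Classical in
/-- the units of the points of order two -/
noncomputable def uu (inc : Bs →+* L) (th : 𝓞 L) (e : (L →+* K) → ZMod 2) (ι : L →+* K) : K :=
  if e ι = 0 then ∏ ι' ∈ univ.filter (fun ι' : L →+* K => ι'.comp inc = ι.comp inc ∧ e ι' = 1),
    (ι (th : L) - ι' (th : L))
  else - ∏ ι' ∈ univ.filter (fun ι' : L →+* K => ι'.comp inc = ι.comp inc ∧ e ι' = 0),
    (ι (th : L) - ι' (th : L))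

open Classical in
variable (K) in
/-- the local conditions for `δ` at the primes `l` not dividing `B` -/
structure Gd1 (inc : Bs →+* L) (th : 𝓞 L) (B : ℕ) (D : ℤ) (δ : L) : Prop where
  even : ∀ l : ℕ, l.Prime → ¬ l ∣ B → ¬ (l : ℤ) ∣ D → ∀ w : HeightOneSpectrum (𝓞 K), Abv w l →
    ∀ ι : L →+* K, Par w (ι δ) 0
  odd : ∀ l : ℕ, l.Prime → ¬ l ∣ B → (l : ℤ) ∣ D → ∀ w : HeightOneSpectrum (𝓞 K), Abv w l →
    ∀ F : K ≃ₐ[ℚ] K, Fb w l F → ∃ e : (L →+* K) → ZMod 2,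
      (∀ τ : Bs →+* K, ∑ ι ∈ univ.filter (fun ι : L →+* K => ι.comp inc = τ), e ι = 0) ∧
      (∀ ι, e (cp F ι) = e ι) ∧
      (∀ ι, (e ι = 0 → Par w (ι δ) 0) ∧ (e ι = 1 → Par w (ι δ) 1)) ∧
      ∀ A : Finset (L →+* K), (∀ ι, ι ∈ A ↔ cp F ι ∈ A) →
        QR w l (∏ ι ∈ A, ι δ * (if e ι = 1 then (D : K) else 1) * uu inc th e ι)

open Classical in
variable (K) in
/-- the blocks have odd order, `θ` separates the elements of a block -/
structure Dat (inc : Bs →+* L) (th : 𝓞 L) : Prop where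
  emb : Nonempty (L →+* K)
  odd : ∀ τ : Bs →+* K, Odd (univ.filter (fun ι : L →+* K => ι.comp inc = τ)).card
  sep : ∀ ι ι' : L →+* K, ι.comp inc = ι'.comp inc → ι (th : L) = ι' (th : L) → ι = ι'

end one

section C

variable {C : Type} {K : Type} [Field K] [NumberField K] {L : C → Type} [∀ c, Field (L c)]
  [∀ c, NumberField (L c)] {Bs : C → Type} [∀ c, Field (Bs c)]
  {V : Type} [AddCommGroup V] [DistribMulAction (K ≃ₐ[ℚ] K) V]

open Classical in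
/-- `V` with the coordinates `cd t c ι` -/
structure VB (inc : (c : C) → Bs c →+* L c) (cd : V →+ ((c : C) → (L c →+* K) → ZMod 2)) : Prop where
  inj : Function.Injective cd
  im : ∀ e : (c : C) → (L c →+* K) → ZMod 2, (∃ t : V, cd t = e) ↔
    ∀ (c : C) (τ : Bs c →+* K),
      ∑ ι ∈ univ.filter (fun ι : L c →+* K => ι.comp (inc c) = τ), e c ι = 0
  eqv : ∀ (g : K ≃ₐ[ℚ] K) (t : V) (c : C) (ι : L c →+* K), cd (g • t) c (cp g ι) = cd t c ι

/-- the prime `w` has the type `t` -/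
def TpG (cd : V →+ ((c : C) → (L c →+* K) → ZMod 2)) (α : (c : C) → 𝓞 (L c))
    (w : HeightOneSpectrum (𝓞 K)) (t : V) : Prop :=
  ∀ (c : C) (ι : L c →+* K), (cd t c ι = 0 → w.valuation K (ι (α c : L c)) = 1) ∧
    (cd t c ι = 1 → w.valuation K (ι (α c : L c)) = WithZero.exp (-1 : ℤ))

/-- `z` belongs to the Selmer elements `α c` of the twists by `D`: divisibility -/
structure RG0 (inc : (c : C) → Bs c →+* L c) (th : (c : C) → 𝓞 (L c))
    (cd : V →+ ((c : C) → (L c →+* K) → ZMod 2)) (B : ℕ) (D : ℤ) (α : (c : C) → 𝓞 (L c))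
    (z : V → 𝓞 K) : Prop where
  sq : Squarefree D
  gd : ∀ c, Gd1 K (inc c) (th c) B D (α c : L c)
  a0 : ∀ c, α c ≠ 0
  nrm : ∀ l : ℕ, l.Prime → ¬ l ∣ B → ∀ w : HeightOneSpectrum (𝓞 K), Abv w l → ∀ (c : C) (ι : L c →+* K),
    w.valuation K (ι (α c : L c)) = 1 ∨ w.valuation K (ι (α c : L c)) = WithZero.exp (-1 : ℤ)
  eqv : Eqv z
  ne : ∀ t, z t ≠ 0
  typ : ∀ l : ℕ, l.Prime → ¬ l ∣ B → ∀ w : HeightOneSpectrum (𝓞 K), Abv w l → ∀ t : V,
    ((l : ℤ) ∣ D ∧ TpG cd α w t → w.valuation K (z t : K) = WithZero.exp (-1 : ℤ)) ∧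
    (¬ ((l : ℤ) ∣ D ∧ TpG cd α w t) → w.valuation K (z t : K) = 1)

open Classical in
/-- `z` belongs to the Selmer elements `α c` of the twists by `D`; `μ, a` are from finite sets -/
structure RG [Fintype V] (inc : (c : C) → Bs c →+* L c) (th : (c : C) → 𝓞 (L c))
    (cd : V →+ ((c : C) → (L c →+* K) → ZMod 2)) (B : ℕ) (μ : ℤ) (a : (c : C) → L c) (D : ℤ)
    (α : (c : C) → 𝓞 (L c)) (z : V → 𝓞 K) : Prop where
  rel : RG0 inc th cd B D α z
  qa : ∀ c, ∃ q : L c, q ≠ 0 ∧ ∀ ι : L c →+* K, ι (α c : L c) *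
    (∏ t ∈ univ.filter (fun t => cd t c ι = 1), (z t : K)) = ι (a c) * ι q ^ 2
  qd : ∃ s : ℤ, s ≠ 0 ∧ (D : 𝓞 K) * (∏ t, z t) = ((μ * s ^ 2 : ℤ) : 𝓞 K)

end C

/-- JOB VG. The module `V` (compare `Pool/Agent/Q149/ESM/VX.lean`): `V` = the additive group of the functions with
sum zero over each block, `(g e) c (g ∘ ι) = e c ι`. -/
def S_VG : Prop := ∀ (C : Type) [Fintype C] (L Bs : C → Type) [∀ c, Field (L c)]
  [∀ c, NumberField (L c)] [∀ c, Field (Bs c)] (K : Type) [Field K] [NumberField K] [IsGalois ℚ K]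
  (inc : (c : C) → Bs c →+* L c),
  ∃ (V : Type) (_ : AddCommGroup V) (_ : Fintype V) (_ : DistribMulAction (K ≃ₐ[ℚ] K) V)
    (cd : V →+ ((c : C) → (L c →+* K) → ZMod 2)), VB inc cd

/-- JOB NIG. `V` is killed by 2 and has no invariants.
Proof.  If `t` is invariant then `cd t c` is constant (`Gal(K/ℚ)` is transitive on the embeddings of `L c` in
the normal field `K`); the sum over a block (of odd order) is zero, so it is zero. -/
def S_NIG : Prop := ∀ (C : Type) [Fintype C] (L Bs : C → Type) [∀ c, Field (L c)]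
  [∀ c, NumberField (L c)] [∀ c, Field (Bs c)] (K : Type) [Field K] [NumberField K] [IsGalois ℚ K]
  (inc : (c : C) → Bs c →+* L c) (th : (c : C) → 𝓞 (L c)), (∀ c, Dat K (inc c) (th c)) →
  ∀ (V : Type) [AddCommGroup V] [DistribMulAction (K ≃ₐ[ℚ] K) V]
  (cd : V →+ ((c : C) → (L c →+* K) → ZMod 2)), VB inc cd →
  (∀ v : V, v + v = 0) ∧ ∀ v : V, (∀ g : K ≃ₐ[ℚ] K, g • v = v) → v = 0

/-- JOB NRM. Normalisation of `δ`.
Proof.  `B1` = the `B` of `EL.S_CL` (proved: `Pool.Agent.Q239.EL.cl`) for `L`, times 2 and the ramified primes of `K`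
(`S_FRX`, proved: `Pool.Agent.Q224.ESM.frx`).  Apply `EL.S_CL` to `δ` and the set of the `v` with `Par v δ 1`:
`α = δ η²`, with valuation `1` or `exp(-1)` at the `v ∤ B1`; if `w` lies above `v` (via `ι`), `w.valuation K (ι x)` is the
valuation of `x` at `v` (unramified).  `Gd1` for `α`: for `A` stable under `F` the product is the one for `δ`
times `y²`, `y = ∏_{ι ∈ A} ι η`, `F y = y`; choose `k` with `w.valuation K (y l^k) = 1`; then
`(y l^k)^(l-1) ≡ 1` modulo `w`, as `F x ≡ x^l`. -/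
def S_NRM : Prop := ∀ (L Bs : Type) [Field L] [NumberField L] [Field Bs] (K : Type) [Field K]
  [NumberField K] [IsGalois ℚ K] (inc : Bs →+* L) (th : 𝓞 L), ∃ B1 : ℕ, B1 ≠ 0 ∧
  ∀ B : ℕ, B1 ∣ B → ∀ (D : ℤ) (δ : L), δ ≠ 0 → Gd1 K inc th B D δ →
  ∃ (α : 𝓞 L) (η : L), α ≠ 0 ∧ η ≠ 0 ∧ (α : L) = δ * η ^ 2 ∧ Gd1 K inc th B D (α : L) ∧
    ∀ l : ℕ, l.Prime → ¬ l ∣ B → ∀ w : HeightOneSpectrum (𝓞 K), Abv w l → ∀ ι : L →+* K,
      w.valuation K (ι (α : L)) = 1 ∨ w.valuation K (ι (α : L)) = WithZero.exp (-1 : ℤ)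

open Classical in
/-- JOB QAG. The class of `α_c` (compare `S_QA` and its proof, `Pool/Agent/Q237/ESM/Qa.lean`).
Proof (from `S_SUF`).  `A_ι = ι (α_c) ∏_{t ι = 1} z t` satisfies `g A_ι = A_(g ∘ ι)`; fix `ι0`; `A_(ι0)` is fixed by the `g`
which are trivial on `ι0 (L c)`, so it is `ι0 A`, and so `A_ι = ι A` for all `ι` (transitivity).  Let `v` be a prime of
`L c` not dividing `B`, above `l`, and `w` a prime of `K` above it (via `ι0`), `l` unramified in `K`: the valuation of `A`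
at `v` is the one of `A_(ι0)` at `w`; if `l ∤ D` it is `1` (`Gd1.even`, `nrm`, `RG0.typ`); if `l ∣ D` let `t` be the type of
`w` (it exists by `Gd1.odd`, `VB.im` and `nrm`): it is `exp(-2)` if `cd t c ι0 = 1` and `1` otherwise.  `S_SUF`. -/
def S_QAG : Prop := ∀ (C : Type) [Fintype C] (L Bs : C → Type) [∀ c, Field (L c)]
  [∀ c, NumberField (L c)] [∀ c, Field (Bs c)] (K : Type) [Field K] [NumberField K] [IsGalois ℚ K]
  (inc : (c : C) → Bs c →+* L c) (th : (c : C) → 𝓞 (L c)), (∀ c, Dat K (inc c) (th c)) →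
  ∀ (V : Type) [AddCommGroup V] [Fintype V] [DistribMulAction (K ≃ₐ[ℚ] K) V]
  (cd : V →+ ((c : C) → (L c →+* K) → ZMod 2)), VB inc cd →
  ∃ B1 : ℕ, B1 ≠ 0 ∧ ∀ B : ℕ, B1 ∣ B → B ≠ 0 → ∃ Q : (c : C) → Finset (L c),
    ∀ (D : ℤ) (α : (c : C) → 𝓞 (L c)) (z : V → 𝓞 K), RG0 inc th cd B D α z → ∀ c, ∃ a ∈ Q c,
      ∃ q : L c, q ≠ 0 ∧ ∀ ι : L c →+* K, ι (α c : L c) *
        (∏ t ∈ univ.filter (fun t => cd t c ι = 1), (z t : K)) = ι a * ι q ^ 2

/-- JOB QDG. `D` and the product of the `z t` (compare `S_QM`).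
Proof.  `M = D ∏_t z t` is invariant under `G` and integral, so a nonzero integer.  For a prime `l ∤ B` (unramified)
and `w` above `l`: if `l ∤ D` it is a unit at `w`; if `l ∣ D` exactly one `z t` has valuation `exp(-1)` (the type of `w`,
which exists by `Gd1.odd`, `nrm`, `VB.im`), and `D` has valuation `exp(-1)`.  So `v_l(M)` is even:
`Pool.Agent.Q151.OS.kap_dvd`. -/
def S_QDG : Prop := ∀ (C : Type) [Fintype C] (L Bs : C → Type) [∀ c, Field (L c)]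
  [∀ c, NumberField (L c)] [∀ c, Field (Bs c)] (K : Type) [Field K] [NumberField K] [IsGalois ℚ K]
  (inc : (c : C) → Bs c →+* L c) (th : (c : C) → 𝓞 (L c)), (∀ c, Dat K (inc c) (th c)) →
  ∀ (V : Type) [AddCommGroup V] [Fintype V] [DistribMulAction (K ≃ₐ[ℚ] K) V]
  (cd : V →+ ((c : C) → (L c →+* K) → ZMod 2)), VB inc cd →
  ∃ B1 : ℕ, B1 ≠ 0 ∧ ∀ B : ℕ, B1 ∣ B → B ≠ 0 →
    ∀ (D : ℤ) (α : (c : C) → 𝓞 (L c)) (z : V → 𝓞 K), RG0 inc th cd B D α z →
      ∃ μ s : ℤ, μ ∣ (B : ℤ) ∧ s ≠ 0 ∧ (D : 𝓞 K) * (∏ t, z t) = ((μ * s ^ 2 : ℤ) : 𝓞 K)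

/-- JOB RELG. From the `δ_c` to `z` (compare `S_REL`, `Pool/Agent/Q124/ESM/REL.lean`).
Proof (from `S_NRM`, `S_ZEX`, `S_QAG`, `S_QDG`, `S_FRX`).  `B2` = the product of `B1` and the `B1` of the other
statements (`Gd1` for `B` implies `Gd1` for a multiple).  `α_c` from `S_NRM`.  For `w` above `l ∣ D`, `l ∤ B`, choose a
Frobenius element `F` (`S_FRX`) and let `e_c` be as in `Gd1.odd`; `VB.im` gives the type `t` of `w` (`TpG`, by `nrm`
and the parities), unique by `VB.inj`; the types are equivariant: `w'.valuation K (cp g ι x) = w.valuation K (ι x)`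
if `w' = g w` (`Mv g w w'`; `Pool.Agent.Q241.ESM.val_mv`).  `S_ZEX` for `R` = the primes `l ∣ D`, `l ∤ B`. -/
def S_RELG : Prop := ∀ (C : Type) [Fintype C] (L Bs : C → Type) [∀ c, Field (L c)]
  [∀ c, NumberField (L c)] [∀ c, Field (Bs c)] (K : Type) [Field K] [NumberField K] [IsGalois ℚ K]
  (inc : (c : C) → Bs c →+* L c) (th : (c : C) → 𝓞 (L c)), (∀ c, Dat K (inc c) (th c)) →
  ∀ (V : Type) [AddCommGroup V] [Fintype V] [DistribMulAction (K ≃ₐ[ℚ] K) V]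
  (cd : V →+ ((c : C) → (L c →+* K) → ZMod 2)), VB inc cd →
  ∀ (ι : Type) [Fintype ι] (Lf : ι → Type)
  [∀ i, Field (Lf i)] [∀ i, NumberField (Lf i)] (em : (i : ι) → Lf i →+* K) (rp : ι → V),
  Rp Lf em rp → ∀ B1 : ℕ, B1 ≠ 0 →
  ∃ (B : ℕ) (C0 K0 : ℝ) (Qm : Finset ℤ) (Qa : Finset ((c : C) → L c)),
    B1 ∣ B ∧ B ≠ 0 ∧ 0 < C0 ∧ ∀ (D : ℤ) (δ : (c : C) → L c), Squarefree D → (∀ c, δ c ≠ 0) →
    (∀ c, Gd1 K (inc c) (th c) B1 D (δ c)) →
    ∃ μ ∈ Qm, ∃ a ∈ Qa, ∃ (α : (c : C) → 𝓞 (L c)) (z : V → 𝓞 K),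
      RG inc th cd B μ a D α z ∧
      (∀ i, ∃ β : 𝓞 (Lf i), em i (β : Lf i) = (z (rp i) : K) ∧ Nice K0 β) ∧
      (∃ N : ℤ, ∏ t, z t = (N : 𝓞 K) ∧ |(N : ℝ)| ≤ C0 * (D.natAbs : ℝ)) ∧
      ∀ c, ∃ η : L c, η ≠ 0 ∧ (α c : L c) = δ c * η ^ 2

open Classical in
/-- JOB DUALG. The linear forms on `V` (compare `Pool/Agent/Q124/ESM/DUAL.lean`).
Proof.  A linear form on `V` is the restriction of a form `e ↦ ∑_c ∑_{ι ∈ A c} e c ι`; replace `A c` by its complement in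
a block if it has an odd number of elements in this block (the blocks have odd order, the sum over the
block is zero on `V`).  Now all blocks contain an even number of elements of `A c`, and this `A` is unique: the
symmetric difference of two such sets gives the zero form, so it is a union of blocks, with even
intersections with the blocks, so empty.  `F A` belongs to `φ ∘ F⁻¹ = φ`, so `F A = A`. -/
def S_DUALG : Prop := ∀ (C : Type) [Fintype C] (L Bs : C → Type) [∀ c, Field (L c)]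
  [∀ c, NumberField (L c)] [∀ c, Field (Bs c)] (K : Type) [Field K] [NumberField K]
  (inc : (c : C) → Bs c →+* L c) (th : (c : C) → 𝓞 (L c)), (∀ c, Dat K (inc c) (th c)) →
  ∀ (V : Type) [AddCommGroup V] [DistribMulAction (K ≃ₐ[ℚ] K) V]
  (cd : V →+ ((c : C) → (L c →+* K) → ZMod 2)), VB inc cd →
  ∀ (F : K ≃ₐ[ℚ] K) (φ : V →+ ZMod 2), (∀ s, φ (F • s) = φ s) →
    ∃ A : (c : C) → Finset (L c →+* K), (∀ s, φ s = ∑ c, ∑ ι ∈ A c, cd s c ι) ∧
      ∀ (c : C) (ι : L c →+* K), ι ∈ A c ↔ cp F ι ∈ A c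

/-- JOB LJG. The local condition for one curve.
Proof.  `B1` = 2 times the ramified primes of `K` and the discriminants (the `ι θ - ι' θ`, `ι ≠ ι'` in one block, are
units at `w`; so the `uu` are units; in fact `uu ≠ 0` suffices below, `Dat.sep`).  As `z t ∈ w`, `l ∣ D` and `t` is the
type of `w` (`RG0.typ`), also for `z'`, `D'`; by the parities the `e` of `Gd1.odd` is `cd t c`, for `α` and `α'`.
`Y = ∏_{ι ∈ A} ι α D^(t ι) uu ι`, `Y'` the same for `α'`, `D'`; `QR w l Y`, `QR w l Y'`, so `QR w l (Y Y')`.  If `x ∈ K^*`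
satisfies `F x = x` then `QR w l (x²)` (`F x ≡ x^l`).  Elements `∏_{ι ∈ A} ι x`, `x ∈ L`, and `∏_{ι ∈ A} uu ι` are fixed by `F`,
since `A` and `t` are.  `n(s)` = the number of the `ι ∈ A` with `cd s c ι = 1`, so `n(F s) = n(s)`;
`N = n(t)`; `φ(s) = n(s) mod 2`.  `R = ∏_s z s^⌊n(s)/2⌋` is fixed by `F`.  By `qa`
`∏_{A} ι α * ∏_{φ(s) = 1} z s * R² = ∏_A ι a * (∏_A ι q)²`.
`N` even: `φ(s - t) ≠ 0` iff `φ(s) = 1`; `P P' = Y Y' x²` with `F x = x`.  `N` odd: `φ(s - t) ≠ 0` iff `φ(s) = 0`, and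
`∏_{φ(s) = 0} z s = μ s0² / (D ∏_{φ(s) = 1} z s)` by `qd`; so `P P' = ∏_A ι (α α') D D' x² = Y Y' x'²`.  So
`QR w l (P P')`, and as `P P'` is a unit at `w`, `(P P')^((l-1)/2) ≡ 1`. -/
def S_LJG : Prop := ∀ (C : Type) [Fintype C] (L Bs : C → Type) [∀ c, Field (L c)]
  [∀ c, NumberField (L c)] [∀ c, Field (Bs c)] (K : Type) [Field K] [NumberField K] [IsGalois ℚ K]
  (inc : (c : C) → Bs c →+* L c) (th : (c : C) → 𝓞 (L c)), (∀ c, Dat K (inc c) (th c)) →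
  ∀ (V : Type) [AddCommGroup V] [Fintype V] [DistribMulAction (K ≃ₐ[ℚ] K) V]
  (cd : V →+ ((c : C) → (L c →+* K) → ZMod 2)), VB inc cd →
  ∃ B1 : ℕ, B1 ≠ 0 ∧ ∀ B : ℕ, B1 ∣ B → B ≠ 0 →
    ∀ (μ : ℤ) (a : (c : C) → L c) (D D' : ℤ) (α α' : (c : C) → 𝓞 (L c)) (z z' : V → 𝓞 K),
    RG inc th cd B μ a D α z → RG inc th cd B μ a D' α' z' →
    ∀ l : ℕ, l.Prime → ¬ l ∣ B → ∀ (w : HeightOneSpectrum (𝓞 K)) (F : K ≃ₐ[ℚ] K), Abv w l →
      Fb w l F → ∀ t : V, z t ∈ w.asIdeal → z' t ∈ w.asIdeal →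
      ∀ (c : C) (A : Finset (L c →+* K)), (∀ ι, ι ∈ A ↔ cp F ι ∈ A) →
      (∏ s ∈ univ.filter (fun s => ∑ ι ∈ A, cd (s - t) c ι ≠ 0), z s * z' s) ^ ((l - 1) / 2) - 1 ∈
        w.asIdeal

/-- JOB LOCG. The local conditions (compare `S_LOC`, `Pool/Agent/Q124/ESM/LOC.lean`).
Proof (from `S_DUALG`, `S_ADD`, `S_LJG`).  `one`: `z t ∈ w` means that `l ∣ D` and `t` is the type of `w`
(`RG0.typ`), unique by `VB.inj`; `Mv F w w` by `Fb`, so `F t` is the type of `w`, `F t = t`.  `two`: `S_DUALG` and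
`S_ADD` (index set `C`, `φ c s = ∑_{ι ∈ A c} cd s c ι`) reduce to `S_LJG`. -/
def S_LOCG : Prop := ∀ (C : Type) [Fintype C] (L Bs : C → Type) [∀ c, Field (L c)]
  [∀ c, NumberField (L c)] [∀ c, Field (Bs c)] (K : Type) [Field K] [NumberField K] [IsGalois ℚ K]
  (inc : (c : C) → Bs c →+* L c) (th : (c : C) → 𝓞 (L c)), (∀ c, Dat K (inc c) (th c)) →
  ∀ (V : Type) [AddCommGroup V] [Fintype V] [DistribMulAction (K ≃ₐ[ℚ] K) V]
  (cd : V →+ ((c : C) → (L c →+* K) → ZMod 2)), VB inc cd →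
  ∃ B1 : ℕ, B1 ≠ 0 ∧ ∀ B : ℕ, B1 ∣ B → B ≠ 0 → ∀ (μ : ℤ) (a : (c : C) → L c),
    ∀ l : ℕ, l.Prime → ¬ l ∣ B → ∀ (w : HeightOneSpectrum (𝓞 K)) (F : K ≃ₐ[ℚ] K), Abv w l →
      Fb w l F → Loc w l F {z : V → 𝓞 K | ∃ (D : ℤ) (α : (c : C) → 𝓞 (L c)),
        RG inc th cd B μ a D α z}

open Classical in
/-- JOB CNTG. The count (compare `S_CNTM` and its proof).
Proof (from `S_NIG`, `S_RPX`, `S_RELG`, `S_LOCG`, `S_MN`).  `B1` for `S_RELG` = `B` times the `B1` of `S_LOCG`.  The fibres of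
the map `(D, (δ_c)) ↦ (μ, a, z)` have at most `2^(1 + ω(B'))` elements, `B'` from `S_RELG`: `l ∤ B'` divides `D` iff some `z t` has
valuation `exp(-1)` at some `w` above `l` (the type of `w` exists by `Gd1.odd`, `nrm`, `VB.im` and `S_FRX`); for given
`D` the classes of the `δ_c` modulo squares are determined: `ι α P = ι (a q²)` and `ι α' P = ι (a q'²)` with
`P = ∏_{t ι = 1} z t`, so `P = ι y` and `α α' y² = (a q q')²`. -/
def S_CNTG : Prop := ∀ (C : Type) [Fintype C] (L Bs : C → Type) [∀ c, Field (L c)]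
  [∀ c, NumberField (L c)] [∀ c, Field (Bs c)] (K : Type) [Field K] [NumberField K] [IsGalois ℚ K]
  (inc : (c : C) → Bs c →+* L c) (th : (c : C) → 𝓞 (L c)), (∀ c, Dat K (inc c) (th c)) →
  ∀ (V : Type) [AddCommGroup V] [Fintype V] [DistribMulAction (K ≃ₐ[ℚ] K) V]
  (cd : V →+ ((c : C) → (L c →+* K) → ZMod 2)), VB inc cd → Semi (K ≃ₐ[ℚ] K) V →
  ∀ B : ℕ, B ≠ 0 → ∃ C0 : ℝ, 0 < C0 ∧ ∀ Fs : (c : C) → ℤ → Finset (L c),
    (∀ (c : C) (D : ℤ), ∀ δ ∈ Fs c D, δ ≠ 0 ∧ Gd1 K (inc c) (th c) B D δ) →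
    (∀ (c : C) (D : ℤ), ∀ δ ∈ Fs c D, ∀ δ' ∈ Fs c D, δ ≠ δ' → ¬ IsSquare (δ * δ')) →
    ∀ X : ℝ, 1 ≤ X →
      ((∑ D ∈ (Icc (-⌊X⌋) ⌊X⌋).filter (fun D : ℤ => Squarefree D), ∏ c, (Fs c D).card : ℕ) : ℝ) ≤
        C0 * X

end Pool.Agent.Q161.ESM
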