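import Pool.Agent.Q161.ESM.Goal
import Pool.Agent.Q161.ESM.Desc3
import Pool.Agent.Q285.ESM.GS
import Pool.Agent.Q195.ESM.FR
import Pool.Agent.Q14.ESM.RB
import Pool.Agent.Q195.ESM.RBX
import Pool.Agent.Q223.ESM.ST
import Pool.Agent.Q182.ESM.Ch
import Pool.Agent.Q24.ESM.BX
import Pool.Agent.Q24.ESM.SM
import Pool.Agent.Q177.ESM.AN
import Pool.Agent.Q184.ESM.Lsf2
import Pool.Agent.Q237.ESM.Mom2
import Pool.Agent.Q237.ESM.Exc2
import Pool.Agent.Q237.ESM.Key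
import Pool.Agent.Q129.ESM.LCU
import Pool.Agent.Q299.ESM.Lct
import Pool.Agent.Q299.ESM.Rpx
import Pool.Agent.Q224.ESM.EVX
import Pool.Agent.Q224.ESM.FRX
import Pool.Agent.Q299.ESM.Res
import Pool.Agent.Q299.ESM.N1f
import Pool.Agent.Q38.ESM.Sys
import Pool.Agent.Q241.ESM.Mn
import Pool.Agent.Q14.ESM.GEN
import Pool.Agent.Q14.ESM.SUF
import Pool.Agent.Q149.ESM.ZEX
import Pool.Agent.Q149.ESM.KX
import Pool.Agent.Q149.ESM.VX
import Pool.Agent.Q237.ESM.Typ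
import Pool.Agent.Q241.ESM.Teq
import Pool.Agent.Q237.ESM.Qa
import Pool.Agent.Q124.ESM.REL
import Pool.Agent.Q124.ESM.DUAL
import Pool.Agent.Q24.ESM.ADD
import Pool.Agent.Q124.ESM.LJ
import Pool.Agent.Q124.ESM.LOC
import Pool.Agent.Q124.ESM.CNTM

/-! # Project ESM: assembly (helpers 14, 24, 38, 124, 129, 149, 161, 177, 182, 184, 195, 223, 224, 237, 241, 285, 299) -/

set_option autoImplicit false

namespace Pool.Agent.Q161.ESM

theorem t_gs : S_GS := Pool.Agent.Q285.ESM.gs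
theorem t_fr : S_FR := Pool.Agent.Q195.ESM.FR.fr t_gs
theorem t_rb : S_RB := Pool.Agent.Q14.ESM.rb
theorem t_rbx : S_RBX := Pool.Agent.Q195.ESM.RBX.rbx t_rb
theorem t_st : S_ST := Pool.Agent.Q223.ESM.ST.st t_fr t_rb t_rbx
theorem t_ch : S_CH := Pool.Agent.Q182.ESM.ch t_st t_rb
theorem t_bx : S_BX := Pool.Agent.Q24.ESM.BX.bx t_ch t_gs
theorem t_sm : S_SM := Pool.Agent.Q24.ESM.SM.sm
theorem t_an : S_AN := Pool.Agent.Q177.ESM.an t_bx t_sm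
theorem t_exc2 : S_EXC2 := Pool.Agent.Q237.ESM.exc2 (Pool.Agent.Q237.ESM.mom2 Pool.Agent.Q184.ESM.lsf2)
theorem t_evx : S_EVX := Pool.Agent.Q224.ESM.evx
theorem t_frx : S_FRX := Pool.Agent.Q224.ESM.frx
theorem t_res : S_RES := Pool.Agent.Q299.ESM.res t_evx
theorem t_n1f : S_N1F := Pool.Agent.Q299.ESM.n1f t_evx t_res
theorem t_sys : S_SYS := Pool.Agent.Q38.ESM.sys Pool.Agent.Q237.ESM.key Pool.Agent.Q129.ESM.lcu
  Pool.Agent.Q299.ESM.lct t_evx t_frx t_res t_n1f t_exc2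
theorem t_mn : S_MN := Pool.Agent.Q241.ESM.mn t_sys t_an t_evx
theorem t_gen : S_GEN := Pool.Agent.Q14.ESM.gen
theorem t_suf : S_SUF := Pool.Agent.Q14.ESM.suf
theorem t_zex : S_ZEX := Pool.Agent.Q149.ESM.zex t_gen t_evx t_frx
theorem t_typ : S_TYP := Pool.Agent.Q237.ESM.typ
theorem t_teq : S_TEQ := Pool.Agent.Q241.ESM.teq
theorem t_rpx : S_RPX := Pool.Agent.Q299.ESM.rpx
theorem t_rel : S_REL := Pool.Agent.Q124.ESM.rel t_desc3 t_zex t_typ t_teq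
  (Pool.Agent.Q237.ESM.qa t_suf t_typ) (Pool.Agent.Q237.ESM.qm t_typ)
theorem t_loc : S_LOC := Pool.Agent.Q124.ESM.loc t_typ t_teq Pool.Agent.Q124.ESM.dual
  Pool.Agent.Q24.ESM.add (Pool.Agent.Q124.ESM.lj t_typ)
theorem t_cntm : S_CNTM := Pool.Agent.Q124.ESM.cntm Pool.Agent.Q149.ESM.kx Pool.Agent.Q149.ESM.vx
  t_rpx t_typ t_rel t_loc t_mn
theorem t_goalm : S_GOALM := goalm t_cntm Pool.Agent.Q161.EA.t_sha

end Pool.Agent.Q161.ESM
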