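import Pool.Agent.Q161.ESM.Stm3
import Pool.Agent.Q161.EA.Defs

/-! # Project ESM: from the coverings to the 2-Selmer groups -/

set_option autoImplicit false

namespace Pool.Agent.Q161.ESM

open WeierstrassCurve Polynomial NumberField

open scoped Classical

open Pool.Agent.Q51.EL (Setup)
open Pool.Agent.Q161.OS (Cov Tr)
open Pool.Agent.Q161.EA

/-- the joint moments of the 2-Selmer groups -/
def S_GOALM : Prop := ∀ (J : Type) [Fintype J] (a b : J → ℤ),
  (∀ j, Irreducible (X ^ 3 + C (a j : ℚ) * X + C (b j : ℚ) : ℚ[X])) →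
  ∃ C : ℝ, 0 < C ∧ ∀ Y : ℝ, 1 ≤ Y →
    ((∑ D ∈ (Finset.Icc (-⌊Y⌋) ⌊Y⌋).filter (fun D : ℤ => Squarefree D),
      ∏ j, Nat.card (Sel2 (tw (a j) (b j) D)) : ℕ) : ℝ) ≤ C * Y

theorem goalm (h1 : S_CNTM) (h2 : S_SHA) : S_GOALM := by
  intro J _ a b hirr
  set f0 : J → ℤ[X] := fun j => X ^ 3 + C (a j) * X + C (b j) with hf0
  have hmap : ∀ j, (f0 j).map (Int.castRingHom ℚ) = X ^ 3 + C (a j : ℚ) * X + C (b j : ℚ) :=
    fun j => f0_map (a j) (b j)
  have hdeg : ∀ j, (f0 j).natDegree = 3 := fun j => f0_deg (a j) (b j)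
  have hmon : ∀ j, (f0 j).leadingCoeff = 1 := by
    intro j
    have : (f0 j).Monic := by
      simp only [hf0]
      monicity!
    exact this
  have hf : ∀ j, Irreducible ((f0 j).map (Int.castRingHom ℚ)) := fun j => by
    rw [hmap]; exact hirr j
  choose L i1 i2 θ hset using fun j => Pool.Agent.Q251.SX.exists_L (f0 j) (hf j)
  choose t ht using fun j => Pool.Agent.Q161.SX.exists_t (hset j)
  have ht' : ∀ j, (t j : L j) = θ j := by
    intro j
    rw [ht j, hmon j]
    simp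
  obtain ⟨C, hC, hmain⟩ := h1 J f0 L t hmon hdeg (fun j => by rw [ht' j]; exact hset j)
  have hΦ := fun (j : J) (D : ℤ) => h2 (a j) (b j) (L j) (θ j) (hset j) D
  have hfin : ∀ (j : J) (D : ℤ), Squarefree D → Finite (Sel2 (tw (a j) (b j) D)) := fun j D hD =>
    ((t_goal (a j) (b j) (hirr j)).1 D hD).1
  refine ⟨C, hC, fun Y hY => ?_⟩
  let Φ : (j : J) → (D : ℤ) → (hD : D ≠ 0) → Sel2 (tw (a j) (b j) D) → L j :=
    fun j D hD => (hΦ j D hD).choose
  have hΦs := fun (j : J) (D : ℤ) (hD : D ≠ 0) => (hΦ j D hD).choose_spec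
  let F : (j : J) → ℤ → Finset (L j) := fun j D => if hD : Squarefree D then
    (@Finset.univ _ (@Fintype.ofFinite _ (hfin j D hD))).image (Φ j D hD.ne_zero) else ∅
  have hinj : ∀ (j : J) (D : ℤ) (hD : D ≠ 0), Function.Injective (Φ j D hD) := by
    intro j D hD x y hxy
    apply (hΦs j D hD).2
    change Tr (L j) (Φ j D hD x * Φ j D hD y)
    rw [hxy]
    exact ⟨1, Φ j D hD y, by push_cast; ring⟩
  have hF := hmain F (by
    intro j D δ hδ
    by_cases hD : Squarefree D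
    · simp only [F, dif_pos hD, Finset.mem_image] at hδ
      obtain ⟨x, -, rfl⟩ := hδ
      have h5 := (hΦs j D hD.ne_zero).1 x
      simp only [ht' j]
      exact h5
    · simp only [F, dif_neg hD] at hδ
      exact absurd hδ (Finset.notMem_empty _)) (by
    intro j D δ hδ δ' hδ' hne htr
    by_cases hD : Squarefree D
    · simp only [F, dif_pos hD, Finset.mem_image] at hδ hδ'
      obtain ⟨x, -, rfl⟩ := hδ
      obtain ⟨y, -, rfl⟩ := hδ'
      exact hne (congrArg _ ((hΦs j D hD.ne_zero).2 x y htr))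
    · simp only [F, dif_neg hD] at hδ
      exact absurd hδ (Finset.notMem_empty _)) Y hY
  refine le_trans (le_of_eq ?_) hF
  congr 1
  refine Finset.sum_congr rfl fun D hD => ?_
  have hD0 : Squarefree D := (Finset.mem_filter.1 hD).2
  refine Finset.prod_congr rfl fun j _ => ?_
  simp only [F, dif_pos hD0]
  rw [Finset.card_image_of_injective _ (hinj j D hD0.ne_zero)]
  rw [@Nat.card_eq_fintype_card _ (@Fintype.ofFinite _ (hfin j D hD0))]
  rfl

/-- the joint moments of `2^rank * #Ш[2]` -/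
theorem main_of (h : S_GOALM) (r : ℕ) (a b : Fin r → ℤ)
    (hab : ∀ i, ∀ x : ℚ, x ^ 3 + a i * x + b i ≠ 0) :
    ∃ C : ℝ, 0 < C ∧ ∀ X : ℝ, 1 ≤ X →
      (∑ D ∈ twists X, ∏ i,
        ((2 ^ rank (a i) (b i) D * Nat.card (ShaTwo (a i) (b i) D) : ℕ) : ℝ)) ≤ C * X := by
  obtain ⟨C, hC, h2⟩ := h (Fin r) a b (fun i => irr (a i) (b i) (hab i))
  refine ⟨C, hC, fun X hX => ?_⟩
  have h3 := h2 X hX
  rw [Nat.cast_sum] at h3
  refine le_trans (Finset.sum_le_sum fun D hD => ?_) h3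
  rw [Nat.cast_prod]
  refine Finset.prod_le_prod (fun i _ => Nat.cast_nonneg _) fun i _ => ?_
  exact_mod_cast ((t_goal (a i) (b i) (irr (a i) (b i) (hab i))).1 D (squarefree_of_mem hD)).2.2

end Pool.Agent.Q161.ESM
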