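import Pool.Agent.Q51.EL.Def

/-!
# Project ESM (helper161), part 1: a sieve in several variables of very different sizes

GOAL OF THE PROJECT.  `E_1, .., E_r` elliptic curves over `ℚ` without rational points of order two, `A` their
product.  There is a `C` such that for all `X` the sum of `∏ #Sel_2(E_{i,D}) = #Sel_2(A_D)` over ALL squarefree
`D`, `|D| ≤ X`, is at most `C X`.  In particular (all `E_i` equal) ALL moments of `#Sel_2(E_D)`, of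
`2^rank(E_D)` and of `#Ш(E_D)[2]` over all quadratic twists are bounded.  (Project EA: `r = 1`.)

METHOD.  `V = ∏ E_i[2]`, a semisimple module of `G = Gal(K/ℚ)`.  An element of `Sel_2(A_D)` gives for each orbit
`O` of `G` on `V` an algebraic integer `z_O` of the field `F_O`, `[F_O : ℚ] = #O`, with `|D| ~ ∏ |N(z_O)|`; modulo `l`
these vectors lie in a set `Om l` of classes.  The number of the variables is `k`, the number of orbits.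
If the variables with index `i ∈ S` are free modulo `l` and the others are fixed (units at `l`), then
the proportion of the allowed classes is `≤ 1 - (∑_{i ∈ S} N1 i l - 1)/l`, on average
`1 - (#S - 1)/l`.  For some `S` (`Bad S`) this is not good enough by a power of `log log`; there one uses that
for most values of the fixed variables many primes `l` are incompatible (`Inc`).

THIS FILE: the abstract sieve (no number fields).  `v(Y) = 1 + log Y`.  Let the sizes of the variables be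
`H_0 ≤ .. ≤ H_(k-1)`, `v_j = v(H_j)`.  The number of the vectors of `T` in the box is at most
`C ∏ H_i^(n_i) * ∏_{j < k-1} v_j^(-1) ((v_j/v_(j+1))^b + v_j^(-b))` (`S_BX`), and the sum over all dyadic boxes with
`∏ H_i^(n_i) ≤ X` is `O(X)` (`S_SM`, `S_AN`).
-/

set_option autoImplicit false

namespace Pool.Agent.Q161.ESM

open Finset
open Pool.Agent.Q51.EL (pr)

section vec

variable {ι : Type} [Fintype ι] [DecidableEq ι]

/-- integral vectors, in blocks -/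
abbrev Vc (n : ι → ℕ) : Type := (i : ι) → Fin (n i) → ℤ

/-- vectors modulo `l`, in blocks -/
abbrev Vm (n : ι → ℕ) (l : ℕ) : Type := (i : ι) → Fin (n i) → ZMod l

/-- the reduction modulo `l` -/
def rd (n : ι → ℕ) (l : ℕ) (x : Vc n) : Vm n l := fun i j => (x i j : ZMod l)

/-- the proportion of the classes in `Om l` among the classes modulo `l` which agree with `z` outside `S` -/
noncomputable def frac (n : ι → ℕ) (Om : (l : ℕ) → Set (Vm n l)) (S : Finset ι) (l : ℕ) (z : Vc n) : ℝ :=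
  (({y : Vm n l | y ∈ Om l ∧ ∀ i, i ∉ S → y i = rd n l z i}.ncard : ℕ) : ℝ) / (l : ℝ) ^ (∑ i ∈ S, n i)

/-- `x` lies in the box with corner `a` and sides `H` (for the blocks in `S`) and agrees with `z` outside `S` -/
def InB (n : ι → ℕ) (S : Finset ι) (a : Vc n) (H : ι → ℕ) (z x : Vc n) : Prop :=
  (∀ i ∈ S, ∀ j, a i j ≤ x i j ∧ x i j < a i j + H i) ∧ ∀ i, i ∉ S → x i = z i

end vec

/-- JOB GS. The large sieve in a box with different sides, with bad primes.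
Proof.  `d = ∑_{i ∈ S} n i ≥ 1`, `q = ∏_{l ∈ Pb} l`, `q² ≤ Y`.  If `X` is empty there is nothing to prove; otherwise
all `frac` are `≥ l^(-d) > 0`.  The number of the classes modulo `q` of the blocks `i ∈ S` of the `x ∈ X` is
at most `∏_{l ∈ Pb} l^d frac` (Chinese remainder theorem: the class modulo `q` is determined by the classes
modulo the `l ∈ Pb`).  For one such class (represented by `x0 ∈ X`) write `x = x0 + q y`, `y` in a box with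
sides `≤ H_i / q + 1`; for a prime `l ∤ q` the map `y ↦ x0 + q y` is bijective modulo `l`, so `y` lies in
`l^d frac` classes.  Cover the box by cubes of side `N = ⌊√Y⌋₊`; as `H_i / (q N) ≥ 1` (`q ≤ √Y`) at most
`∏ (3 H_i / (q N))^(n_i)` cubes are needed.  In each cube: `Pool.Agent.Q51.EL.S_LSV` (proved:
`Pool.Agent.Q51.EL.lsv`; it uses natural numbers, shift the coordinates) with the primes `l ∈ P` with
`2 A < l`, `frac < 1`, `η l = 1 - frac ≤ A / l`, `Q = ⌊Y^(1/4)⌋₊`, `Q² ≤ N`, and `EL.S_SUMS` (proved: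
`Pool.Agent.Q91.EL.sums`): at most `C N^d exp (- ∑ η)` elements, and `exp (- η) ≤ (1 - η) exp (η²)`,
`η ≤ 1/2`, `∑ η² ≤ A² ∑ 1/l²`; the finitely many `l ≤ 2 A` contribute the constant factor
`∏ l^(-d) ≤ ∏ frac`.  Compare `Pool/Agent/Q150/EA/AsvB.lean` (one class, number fields) and
`Pool/Agent/Q211/OD/SIEVE2.lean` (covering by cubes). -/
def S_GS : Prop := ∀ (ι : Type) [Fintype ι] [DecidableEq ι] (n : ι → ℕ) (A : ℝ), (∀ i, 1 ≤ n i) → 0 ≤ A →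
  ∃ C : ℝ, 0 < C ∧ ∀ (Om : (l : ℕ) → Set (Vm n l)) (S : Finset ι) (z a : Vc n) (H : ι → ℕ) (Y : ℝ)
    (P Pb : Finset ℕ) (X : Finset (Vc n)), S.Nonempty → 1 ≤ Y → (∀ i ∈ S, Y ≤ H i) → Disjoint P Pb →
    (∀ l ∈ P ∪ Pb, l.Prime ∧ (l : ℝ) ^ 4 ≤ Y) → ((∏ l ∈ Pb, l : ℕ) : ℝ) ^ 2 ≤ Y →
    (∀ l ∈ P, 1 - A / l ≤ frac n Om S l z) →
    (∀ x ∈ X, InB n S a H z x ∧ ∀ l ∈ P ∪ Pb, rd n l x ∈ Om l) →
    (X.card : ℝ) ≤ C * (∏ i ∈ S, (H i : ℝ) ^ n i) * ∏ l ∈ P ∪ Pb, frac n Om S l z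

/-- JOB FR. The mean value of the local densities.
Proof (from `S_GS`, applied to `S1 ∪ S2`; `H_i = N := (∏_{l ∈ P ∪ Pb} l) * ⌈Y⌉₊` for `i ∈ S2`, corner `0`
there).  For `x ∈ X` exactly `N^(d2) ∏_l frac n Om S2 l x` of the vectors `w` which agree with `x` outside `S2`
and have coordinates in `[0, N)` in `S2`, are in `Om l` modulo all `l ∈ P ∪ Pb` (Chinese remainder theorem;
`d2 = ∑_{i ∈ S2} n i`; compare `Pool/Agent/Q92/EA/Crt.lean`, `Pool/Agent/Q223/EA/FSA.lean`).  So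
`∑_x N^(d2) ∏ frac ≤ C ∏_{S1} H_i^(n_i) * N^(d2) * ∏ frac n Om (S1 ∪ S2) l z`. -/
def S_FR : Prop := ∀ (ι : Type) [Fintype ι] [DecidableEq ι] (n : ι → ℕ) (A : ℝ), (∀ i, 1 ≤ n i) → 0 ≤ A →
  ∃ C : ℝ, 0 < C ∧ ∀ (Om : (l : ℕ) → Set (Vm n l)) (S1 S2 : Finset ι) (z a : Vc n) (H : ι → ℕ) (Y : ℝ)
    (P Pb : Finset ℕ) (X : Finset (Vc n)), Disjoint S1 S2 → S1.Nonempty → 1 ≤ Y → (∀ i ∈ S1, Y ≤ H i) →
    Disjoint P Pb → (∀ l ∈ P ∪ Pb, l.Prime ∧ (l : ℝ) ^ 4 ≤ Y) → ((∏ l ∈ Pb, l : ℕ) : ℝ) ^ 2 ≤ Y →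
    (∀ l ∈ P, 1 - A / l ≤ frac n Om (S1 ∪ S2) l z) → (∀ x ∈ X, InB n S1 a H z x) →
    ∑ x ∈ X, ∏ l ∈ P ∪ Pb, frac n Om S2 l x ≤
      C * (∏ i ∈ S1, (H i : ℝ) ^ n i) * ∏ l ∈ P ∪ Pb, frac n Om (S1 ∪ S2) l z

/-- the data of the sieve: `Om l`: the allowed classes; `U l i`: the units; `Nm`: norms; `Nc`: the nice
values of a variable; `N1 i l`: the number of the primes of degree one above `l`; `sp`: the primes which
split completely; `Bad`: the bad sets of free variables; `Inc S l x`: the values of the variables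
outside `S` are incompatible with `l` -/
structure Sy {ι : Type} (n : ι → ℕ) where
  B : ℕ
  Om : (l : ℕ) → Set (Vm n l)
  U : (l : ℕ) → (i : ι) → Set (Fin (n i) → ZMod l)
  Nm : (i : ι) → (Fin (n i) → ℤ) → ℕ
  Nc : (i : ι) → Set (Fin (n i) → ℤ)
  N1 : ι → ℕ → ℕ
  sp : Set ℕ
  Bad : Finset ι → Prop
  Inc : Finset ι → ℕ → Vc n → Prop

section sys

variable {ι : Type} [Fintype ι] [DecidableEq ι] {n : ι → ℕ}

open Classical in
/-- the properties of the data -/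
structure Ok (s : Sy n) (A c κ : ℝ) : Prop where
  A1 : 1 ≤ A
  c0 : 0 < c
  κ0 : 0 < κ
  B0 : s.B ≠ 0
  n1 : ∀ i, 1 ≤ n i
  unit : ∀ l : ℕ, l.Prime → ¬ l ∣ s.B → ∀ y : Vm n l, (∀ i, y i ∈ s.U l i) → y ∈ s.Om l
  cU : ∀ l : ℕ, l.Prime → ¬ l ∣ s.B → ∀ i, (((s.U l i)ᶜ.ncard : ℕ) : ℝ) * l ≤ A * (l : ℝ) ^ n i
  nm : ∀ l : ℕ, l.Prime → ¬ l ∣ s.B → ∀ (i : ι) (x : Fin (n i) → ℤ),
    (fun j => (x j : ZMod l)) ∉ s.U l i → l ∣ s.Nm i x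
  nb : ∀ (i : ι) (x : Fin (n i) → ℤ) (H : ℝ), 1 ≤ H → (∀ j, |(x j : ℝ)| ≤ H) →
    (s.Nm i x : ℝ) ≤ A * H ^ n i
  n0 : ∀ (i : ι) (x : Fin (n i) → ℤ), x ∈ s.Nc i → s.Nm i x ≠ 0
  nle : ∀ i l, l.Prime → (s.N1 i l : ℝ) ≤ A
  dens : ∀ l : ℕ, l.Prime → ¬ l ∣ s.B → ∀ S : Finset ι, S.Nonempty → ∀ z : Vc n,
    (∀ i, i ∉ S → rd n l z i ∈ s.U l i) →
    frac n s.Om S l z ≤ 1 - ((∑ i ∈ S, (s.N1 i l : ℝ)) - 1) / l + A / (l : ℝ) ^ 2
  good : ∀ l : ℕ, l.Prime → ¬ l ∣ s.B → l ∈ s.sp → ∀ S : Finset ι, S.Nonempty → S ≠ univ →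
    ¬ s.Bad S → ∀ z : Vc n, (∀ i, i ∉ S → rd n l z i ∈ s.U l i) →
    frac n s.Om S l z ≤ 1 - ((∑ i ∈ S, (s.N1 i l : ℝ)) - 1 + κ) / l + A / (l : ℝ) ^ 2
  bad : ∀ l : ℕ, l.Prime → ¬ l ∣ s.B → l ∈ s.sp → ∀ S : Finset ι, S.Nonempty → S ≠ univ → s.Bad S →
    ∀ z : Vc n, (∀ i, i ∉ S → rd n l z i ∈ s.U l i) → s.Inc S l z →
    frac n s.Om S l z ≤ 1 - ((∑ i ∈ S, (s.N1 i l : ℝ)) - 1 + κ) / l + A / (l : ℝ) ^ 2
  mer : ∀ (i : ι) (Y : ℝ), 3 ≤ Y →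
    |∑ l ∈ pr Y, (s.N1 i l : ℝ) / l - Real.log (Real.log Y)| ≤ A
  mes : ∀ Y : ℝ, 3 ≤ Y →
    |∑ l ∈ (pr Y).filter (fun l => l ∈ s.sp), (1 : ℝ) / l - c * Real.log (Real.log Y)| ≤ A

open Classical in
/-- `x` is not exceptional: many primes are incompatible with the variables outside `S` -/
def Nx (s : Sy n) (S : Finset ι) (b C Y : ℝ) (x : Vc n) : Prop :=
  ∀ Z : ℝ, Real.sqrt Y ≤ Z → Real.log Z ≤ Real.log Y ^ (1 + b) →
    b * Real.log (Real.log Z / Real.log Y) - C ≤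
      ∑ l ∈ (pr Z).filter (fun l : ℕ => Real.sqrt Y < (l : ℝ) ∧ l ∈ s.sp ∧ ¬ l ∣ s.B ∧
        (s.Inc S l x ∨ ∃ i, i ∉ S ∧ rd n l x i ∉ s.U l i)), (1 : ℝ) / l

/-- few values of one variable are exceptional -/
def Ex (s : Sy n) : Prop := ∀ S : Finset ι, S.Nonempty → S ≠ univ → s.Bad S → ∀ i0, i0 ∉ S → ∀ A0 : ℝ,
  ∃ b C Y0 : ℝ, 0 < b ∧ 16 ≤ Y0 ∧ ∀ (Y : ℝ) (z : Vc n) (E : Finset (Fin (n i0) → ℤ)), Y0 ≤ Y →
    (∀ y ∈ E, y ∈ s.Nc i0 ∧ (∀ j, |(y j : ℝ)| ≤ Y) ∧ ¬ Nx s S b C Y (Function.update z i0 y)) →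
    (E.card : ℝ) * Real.log Y ^ A0 ≤ Y ^ n i0

/-- `v(Y) = 1 + log Y` -/
noncomputable def vv (Y : ℝ) : ℝ := 1 + Real.log Y

/-- the primes `l` not dividing `B` with `l ≤ Y^(1/4)` -/
noncomputable def PP (B : ℕ) (Y : ℝ) : Finset ℕ := (pr Y).filter (fun l => ¬ l ∣ B ∧ (l : ℝ) ^ 4 ≤ Y)

/-- the product of the densities over the primes up to `Y^(1/4)` -/
noncomputable def Wt (s : Sy n) (S : Finset ι) (Y : ℝ) (x : Vc n) : ℝ :=
  ∏ l ∈ PP s.B Y, frac n s.Om S l x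

end sys

/-- JOB RB. The product of the densities over the primes between `Y1^(1/4)` and `Y2^(1/4)`.
Proof.  `0 ≤ frac ≤ 1` always.  For `l` in the range, `l` not dividing `∏_{i ∉ S} Nm i (z i)` (so the `z i` are
units at `l`, `Ok.nm`): `frac ≤ 1 - s/l + A/l² ≤ exp (- s/l + A/l²)`, `s = ∑_{i ∈ S} N1 i l - 1`.  If `l` divides
some `Nm i (z i) ≤ A Y1^(n i)`, `i ∉ S`: `frac ≤ 1 ≤ exp (- s/l) exp (A k / l)`; the number of these `l > Y1^(1/4)`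
is at most `k * (4 n + C)` (their product is at most `A Y1^n`; use `l ≥ 2` if `Y1` is small), so the sum of
`1/l` over them is bounded.  `∑ s/l` over the range is `≥ (#S - 1)(log log Y2 - log log Y1) - C` (`Ok.mer` and
Mertens' theorem: `∑_{l ≤ Y} 1/l = log log Y + O(1)`, compare `Pool/Agent/Q182/EA/Mer.lean`, `Q91/EL/Sums.lean`;
the primes dividing `B` contribute `O(1)`; for small `Y1`, `Y2` compare with `v(Y) = 1 + log Y ≥ 1`).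
Good `S`: in addition `κ ∑_{l ∈ sp} 1/l ≥ κ c (log log Y2 - log log Y1) - C`. -/
def S_RB : Prop := ∀ (ι : Type) [Fintype ι] [DecidableEq ι] (n : ι → ℕ) (s : Sy n) (A c κ : ℝ),
  Ok s A c κ → ∃ C : ℝ, 0 < C ∧ ∀ (S : Finset ι) (z : Vc n) (Y1 Y2 : ℝ), S.Nonempty → 1 ≤ Y1 → Y1 ≤ Y2 →
    (∀ i, i ∉ S → (∀ j, |(z i j : ℝ)| ≤ Y1) ∧ s.Nm i (z i) ≠ 0) →
    ∏ l ∈ PP s.B Y2 \ PP s.B Y1, frac n s.Om S l z ≤ C * (vv Y1 / vv Y2) ^ (S.card - 1) ∧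
    (S ≠ univ → ¬ s.Bad S → ∏ l ∈ PP s.B Y2 \ PP s.B Y1, frac n s.Om S l z ≤
      C * (vv Y1 / vv Y2) ^ (S.card - 1) * (vv Y1 / vv Y2) ^ (c * κ))

/-- JOB RBX. The same for bad `S` and values which are not exceptional.
Proof: as `S_RB`; in addition the primes `l ∈ sp`, `√Y1 < l ≤ Z`, with `Inc S l x` and all `x i`, `i ∉ S`, units at
`l` give a factor `exp (- κ ∑ 1/l)`, `Z = min (Y2^(1/4), exp ((log Y1)^(1+b)))`.  The primes for which some `x i`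
is not a unit contribute `O(1)` to the sum in `Nx` (see `S_RB`).  So the factor is at most
`C (log Z / log Y1)^(- κ b)`, which is `≤ C (4 log Y1 / log Y2)^(κ b)` or `= C (log Y1)^(- κ b²)`.  (If
`Y2^(1/4) < √Y1` or `(log Y1)^(1+b) < ..`, the ratio `v(Y1)/v(Y2)` is bounded below and `S_RB` suffices.)
`b' = min(1, κ b, κ b²)`. -/
def S_RBX : Prop := ∀ (ι : Type) [Fintype ι] [DecidableEq ι] (n : ι → ℕ) (s : Sy n) (A c κ : ℝ),
  Ok s A c κ → ∀ b C0 : ℝ, 0 < b → ∃ b' C : ℝ, 0 < b' ∧ b' ≤ 1 ∧ 0 < C ∧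
  ∀ (S : Finset ι) (x : Vc n) (Y1 Y2 : ℝ), S.Nonempty → S ≠ univ → s.Bad S → 16 ≤ Y1 → Y1 ≤ Y2 →
    (∀ i, i ∉ S → (∀ j, |(x i j : ℝ)| ≤ Y1) ∧ s.Nm i (x i) ≠ 0) → Nx s S b C0 Y1 x →
    ∏ l ∈ PP s.B Y2 \ PP s.B Y1, frac n s.Om S l x ≤
      C * (vv Y1 / vv Y2) ^ (S.card - 1) * ((vv Y1 / vv Y2) ^ b' + vv Y1 ^ (-b'))

/-- JOB ST. One step of the recursion.
Proof (from `S_FR`, `S_RB`, `S_RBX`, `Ex`).  `Wt s S' Y2 x ≤ Wt s S' Y x * ∏_{PP Y2 \ PP Y1} frac n Om S' l x`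
(`frac ≤ 1`).  For the `x` which are not exceptional (good `S'`: for all `x`) the last product is
`≤ C (v1/v2)^(#S' - 1) ((v1/v2)^b + v1^(-b))`, `v1 = v(Y1) ∈ [v(Y), A1 v(Y)]`.  And by `S_FR` with `S1 = S \ S'`, `S2 = S'`
(boxes with the corner `- ⌊H_i⌋` and side `2 ⌊H_i⌋ + 1 ≤ 3 H_i`), `Pb` = the primes of `PP s.B Y` dividing
`∏_{i ∉ S} Nm i (z i)`, `P` = the others (for these the `z i` are units, and `frac ≥ 1 - C/l` by `Ok.unit`,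
`Ok.cU`): `∑_x Wt s S' Y x ≤ C ∏ H_i^(n_i) Wt s S Y z`.  The exceptional `x` (bad `S'`, `Y1 ≥ Y0`): let `i0 ∈ S \ S'`
with `H_(i0) = Y1`; for given values of the other variables there are at most `Y1^(n i0) (log Y1)^(-A0')` of
them (`Ex`), and the product over `PP Y2 \ PP Y1` is `≤ C (v1/v2)^(#S' - 1)`, the rest of `Wt` is `≤ 1`.  If `Y1 < Y0`
then `v(Y)^(-A0)` is bounded below: trivial bound.  (`b`: the minimum over the finitely many `S'`, `i0`; note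
that `(v1/v2)^b + v1^(-b)` increases if `b` decreases.) -/
def S_ST : Prop := ∀ (ι : Type) [Fintype ι] [DecidableEq ι] (n : ι → ℕ) (s : Sy n) (A c κ : ℝ),
  Ok s A c κ → Ex s → ∀ A1 A0 : ℝ, ∃ b C : ℝ, 0 < b ∧ b ≤ 1 ∧ 0 < C ∧
  ∀ (S S' : Finset ι) (H : ι → ℝ) (Y Y1 Y2 : ℝ) (z : Vc n) (X : Finset (Vc n)), S' ⊆ S → S'.Nonempty →
    1 ≤ Y → Y ≤ Y1 → Y1 ≤ Y2 → vv Y1 ≤ A1 * vv Y → (∀ i ∈ S \ S', Y ≤ H i ∧ H i ≤ Y1) →
    (∃ i ∈ S \ S', H i = Y1) →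
    ((∏ i ∈ univ \ S, s.Nm i (z i) : ℕ) : ℝ) ^ 2 ≤ Y →
    (∀ i, i ∉ S → (∀ j, |(z i j : ℝ)| ≤ Y) ∧ s.Nm i (z i) ≠ 0) →
    (∀ x ∈ X, (∀ i ∈ S \ S', x i ∈ s.Nc i ∧ ∀ j, |(x i j : ℝ)| ≤ H i) ∧ ∀ i, i ∉ S \ S' → x i = z i) →
    ∑ x ∈ X, Wt s S' Y2 x ≤ C * (∏ i ∈ S \ S', H i ^ n i) * (vv Y / vv Y2) ^ (S'.card - 1) *
      (((vv Y / vv Y2) ^ b + vv Y ^ (-b)) * Wt s S Y z + vv Y ^ (-A0))

/-- the saving: `Phi k b v j = v_0^(-(k-1)) ∏_{i < j} (v_i/v_(i+1))^(k-i-2) ((v_i/v_(i+1))^b + v_i^(-b))` -/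
noncomputable def Phi (k : ℕ) (b : ℝ) (v : ℕ → ℝ) : ℕ → ℝ
  | 0 => (v 0) ^ (-((k : ℝ) - 1))
  | j + 1 => Phi k b v j * (v j / v (j + 1)) ^ (k - j - 2) *
      ((v j / v (j + 1)) ^ b + (v j) ^ (-b))

/-- `v_j = v(H_j)`, where `H_j` is the size of the `j`-th variable in the order given by `e` -/
noncomputable def vs {ι : Type} {k : ℕ} (e : ι ≃ Fin k) (H : ι → ℝ) (j : ℕ) : ℝ :=
  if h : j < k then vv (H (e.symm ⟨j, h⟩)) else 1

/-- JOB CH. The chain of the steps.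
Proof (from `S_ST`, `S_RB`).  Let `S_j = {i | j ≤ e i}`, `H_j` the size of the variable `j`, `v_j = v(H_j)`,
`N = ∑ n i`.  Choose `A1` so large that `A1 v_(j-1) ≤ v_j` implies `(∏_{e i < j} A H_i^(n i))² ≤ A^(2k) H_(j-1)^(2N) ≤ H_j`.
Strong induction on `j`.  `j = 0`: `S_0 = univ`, `X` has at most one element (`x = 0`), and `S_RB` with `Y1 = 1`
(`PP s.B 1 = ∅`) gives `Wt ≤ C v_0^(-(k-1))`.  `j > 0`: let `j' < j` be the largest index which is `0` or satisfies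
`A1 v_(j'-1) ≤ v_j'`; so `v_i ≤ A1^k v_(j')` for `j' ≤ i < j`.  For every value `z` of the variables `< j'` apply `S_ST`
with `S = S_(j')`, `S' = S_j`, `Y = H_(j')`, `Y1 = H_(j-1)`, `Y2 = H_j`, `A0 = 3 k`; `∑_z Wt s S_(j') H_(j') z` is bounded
by induction, and the number of the `z` by `∏ (3 H_i)^(n i)`.  Finally
`Phi j ≥ c Phi j' (v_(j')/v_j)^(k-j-1) ((v_(j')/v_j)^b + v_(j')^(-b))` (the factors with index `j' ≤ i < j - 1` are bounded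
below as `v_i/v_(i+1) ≥ 1/A1`), and `v_(j')^(-A0) (v_(j')/v_j)^(k-j-1) ≤ C Phi j`, since
`Phi j = ∏_{i < j} v_i^(-1) * v_j^(-(k-1-j)) ∏_{i < j} ((v_i/v_(i+1))^b + v_i^(-b)) ≥ v_(j-1)^(-j) v_j^(-(k-1-j)) v_(j-1)^(-j)`. -/
def S_CH : Prop := ∀ (ι : Type) [Fintype ι] [DecidableEq ι] (n : ι → ℕ) (s : Sy n) (A c κ : ℝ),
  Ok s A c κ → Ex s → ∃ A1 b C : ℝ, 1 ≤ A1 ∧ 0 < b ∧ b ≤ 1 ∧ 0 < C ∧
  ∀ (k : ℕ) (e : ι ≃ Fin k) (H : ι → ℝ), (∀ i, 1 ≤ H i) → (∀ i i', e i ≤ e i' → H i ≤ H i') →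
  ∀ (j : ℕ) (hj : j < k), (j = 0 ∨ A1 * vs e H (j - 1) ≤ vs e H j) → ∀ X : Finset (Vc n),
    (∀ x ∈ X, (∀ i, (e i : ℕ) < j → x i ∈ s.Nc i ∧ ∀ j', |(x i j' : ℝ)| ≤ H i) ∧
      ∀ i, j ≤ (e i : ℕ) → x i = 0) →
    ∑ x ∈ X, Wt s (univ.filter (fun i => j ≤ (e i : ℕ))) (H (e.symm ⟨j, hj⟩)) x ≤
      C * (∏ i ∈ univ.filter (fun i => (e i : ℕ) < j), H i ^ n i) * Phi k b (vs e H) j

/-- the set `T` satisfies the local conditions and consists of nice vectors -/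
def InT {ι : Type} {n : ι → ℕ} (s : Sy n) (T : Set (Vc n)) : Prop :=
  ∀ x ∈ T, (∀ l : ℕ, l.Prime → ¬ l ∣ s.B → rd n l x ∈ s.Om l) ∧ ∀ i, x i ∈ s.Nc i

/-- JOB BX. The number of the vectors in a box.
Proof (from `S_CH`, `S_GS`).  Let `j` be the largest index `< k` which is `0` or satisfies `A1 v_(j-1) ≤ v_j`.
For given values of the variables `< j` the number of the vectors of `T` in the box is by `S_GS`
(`S = S_j`, `Y = H_j`, `Pb` = the primes dividing the norms of the variables `< j`, see `S_ST`) at most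
`C ∏_{S_j} H_i^(n_i) Wt s S_j H_j z`; then `S_CH`.  `Phi (k-1) ≥ c Phi j`, as `v_i / v_(i+1) ≥ 1/A1` for `j ≤ i`. -/
def S_BX : Prop := ∀ (ι : Type) [Fintype ι] [DecidableEq ι] [Nonempty ι] (n : ι → ℕ) (s : Sy n)
  (A c κ : ℝ), Ok s A c κ → Ex s → ∃ b C : ℝ, 0 < b ∧ b ≤ 1 ∧ 0 < C ∧
  ∀ (T : Set (Vc n)), InT s T → ∀ (k : ℕ) (e : ι ≃ Fin k) (H : ι → ℝ), (∀ i, 1 ≤ H i) →
    (∀ i i', e i ≤ e i' → H i ≤ H i') →
    {x ∈ T | ∀ i j, |(x i j : ℝ)| ≤ H i}.Finite ∧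
    (({x ∈ T | ∀ i j, |(x i j : ℝ)| ≤ H i}.ncard : ℕ) : ℝ) ≤
      C * (∏ i, H i ^ n i) * Phi k b (vs e H) (k - 1)

open Classical in
/-- JOB SM. The sum over the sizes.
Proof.  `v_j = 1 + w_j log 2`.  `Phi k b v (k-1) = ∏_{j < k-1} v_j^(-1) ((v_j/v_(j+1))^b + v_j^(-b))`.  As
`∑ m_j w_j = r` and `w_(k-1)` is the largest, `v_(k-1) ≥ c (1 + r)`, and `w_(k-1)` is determined by the others.  And
`∑_{0 ≤ w ≤ W} v^(-1) ((v/V)^b + v^(-b)) ≤ C` (`v = 1 + w log 2`, `V = 1 + W log 2`, or `V = c (1 + r)`, `W ≤ r`), so the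
sums over `w_0`, `w_1`, .., `w_(k-2)` (in this order) are all bounded. -/
def S_SM : Prop := ∀ (k : ℕ) (m : Fin k → ℕ) (b : ℝ), 1 ≤ k → (∀ j, 1 ≤ m j) → 0 < b → b ≤ 1 →
  ∃ C : ℝ, 0 < C ∧ ∀ r : ℕ,
    ∑ w ∈ (Fintype.piFinset (fun _ : Fin k => range (r + 1))).filter
        (fun w => Monotone w ∧ ∑ j, m j * w j = r),
      Phi k b (fun j => if h : j < k then 1 + (w ⟨j, h⟩ : ℝ) * Real.log 2 else 1) (k - 1) ≤ C

/-- JOB AN. The number of all vectors of `T` of bounded norm.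
Proof (from `S_BX`, `S_SM`).  For `x` in the set choose `H` and `u_i` with `2^(u_i) ≤ H_i < 2^(u_i + 1)`; so `x` lies in
the box with the sides `2^(u_i + 1)`, and `∏ 2^(u_i n_i) ≤ X`.  For `u` with `∑ n_i u_i = r` choose a bijection `e` of `ι`
with `Fin k` for which `u ∘ e⁻¹` is monotone; by `S_BX` at most `C 2^r Phi` vectors; the sum over the `u` with
given `e` and `r` is `≤ C 2^r` by `S_SM` (`v(2^(u+1))` and `1 + u log 2` differ by a bounded factor, and so do the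
`Phi`), there are `k!` bijections, and `∑_{2^r ≤ X} 2^r ≤ 2 X`. -/
def S_AN : Prop := ∀ (ι : Type) [Fintype ι] [DecidableEq ι] [Nonempty ι] (n : ι → ℕ) (s : Sy n)
  (A c κ : ℝ), Ok s A c κ → Ex s → ∃ C : ℝ, 0 < C ∧ ∀ (T : Set (Vc n)), InT s T → ∀ X : ℝ, 1 ≤ X →
    {x ∈ T | ∃ H : ι → ℕ, (∀ i, 1 ≤ H i) ∧ (∀ i j, |x i j| ≤ H i) ∧
      ((∏ i, H i ^ n i : ℕ) : ℝ) ≤ X}.Finite ∧
    (({x ∈ T | ∃ H : ι → ℕ, (∀ i, 1 ≤ H i) ∧ (∀ i j, |x i j| ≤ H i) ∧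
      ((∏ i, H i ^ n i : ℕ) : ℝ) ≤ X}.ncard : ℕ) : ℝ) ≤ C * X

end Pool.Agent.Q161.ESM
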